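import Pool.Agent.Q246.SB.Glob

set_option autoImplicit false

/-!
# The number of exceptional zeros, and of all zeros
-/

namespace Pool.Agent.Q246.SB

open Complex Filter Topology Set Metric MeasureTheory
open Pool.Agent.Y671.GL
open Pool.Agent.Q246.NC (OffB)
open Pool.Agent.Q246.SA
open scoped ComplexConjugate

variable {X H Z : ℂ → ℂ} {κ : ℝ} {m : Measure ℝ} {g : ℝ → ℂ} {a A : ℝ}

/-- zeros at bounded height -/
theorem low {R0 : ℝ} {K : ℝ} (hK : 0 < K)
    (hcnt : ∀ (u : ℂ) (t : ℝ), ‖u‖ = 1 → 0 ≤ t → ∀ S : Finset ℂ, (∀ z ∈ S, |z.re| ≤ R0 ∧ |z.im - t| ≤ 4) →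
      ∑ z ∈ S, (analyticOrderNatAt (FM X m g u) z : ℝ) ≤ K * Real.log (3 + t)) (Y : ℝ) :
    ∃ C : ℝ, 0 < C ∧ ∀ u : ℂ, ‖u‖ = 1 → ∀ S : Finset ℂ, (∀ z ∈ S, |z.re| ≤ R0 ∧ 0 < z.im ∧ z.im ≤ Y) →
      ∑ z ∈ S, (analyticOrderNatAt (FM X m g u) z : ℝ) ≤ C := by
  classical
  obtain ⟨n, hn⟩ := exists_nat_ge Y
  have hl3 : 0 < Real.log (3 + n) := Real.log_pos (by
    have : (0 : ℝ) ≤ n := Nat.cast_nonneg n
    linarith)
  refine ⟨((n : ℝ) + 1) * (K * Real.log (3 + n)), by positivity, fun u hu S hS => ?_⟩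
  obtain ⟨B, hB⟩ : ∃ B : Finset ℂ, B = (Finset.range (n + 1)).image (fun k : ℕ => (k : ℂ)) := ⟨_, rfl⟩
  have h1 := sum_split S B (fun z => (analyticOrderNatAt (FM X m g u) z : ℝ)) (fun _ _ => Nat.cast_nonneg _)
    (fun z b => |z.im - b.re| ≤ 4) (M := K * Real.log (3 + n)) (by
      intro z hz
      obtain ⟨h1, h2, h3⟩ := hS z hz
      refine ⟨(⌊z.im⌋₊ : ℂ), ?_, ?_⟩
      · rw [hB, Finset.mem_image]
        refine ⟨⌊z.im⌋₊, ?_, rfl⟩
        rw [Finset.mem_range]
        have h4 : (⌊z.im⌋₊ : ℝ) ≤ n := (Nat.floor_le h2.le).trans (h3.trans hn)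
        have h5 : ⌊z.im⌋₊ ≤ n := by exact_mod_cast h4
        omega
      · rw [Complex.natCast_re, abs_le]
        have h4 := Nat.floor_le h2.le
        have h5 := Nat.lt_floor_add_one z.im
        constructor <;> linarith)
    (by
      intro b hb
      rw [hB, Finset.mem_image] at hb
      obtain ⟨k, hk, rfl⟩ := hb
      rw [Finset.mem_range] at hk
      have hkn : (k : ℝ) ≤ n := by
        have : k ≤ n := by omega
        exact_mod_cast this
      have hk0 : (0 : ℝ) ≤ k := Nat.cast_nonneg k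
      refine (hcnt u k hu hk0 _ fun z hz => ?_).trans ?_
      · obtain ⟨h3, h4⟩ := Finset.mem_filter.1 hz
        rw [Complex.natCast_re] at h4
        exact ⟨(hS z h3).1, h4⟩
      · refine mul_le_mul_of_nonneg_left (Real.log_le_log (by linarith) (by linarith)) hK.le)
  refine h1.trans ?_
  have h2 : (B.card : ℝ) ≤ (n : ℝ) + 1 := by
    have h3 : B.card ≤ n + 1 := by
      rw [hB]
      exact Finset.card_image_le.trans (by rw [Finset.card_range])
    exact_mod_cast h3
  exact mul_le_mul_of_nonneg_right h2 (by positivity)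

/-- **The exceptional zeros.** -/
theorem exc (h : Sy X) (hcf : CF κ H X Z) (hfr : FR X) (hm : MD m g a A) (hoff : OffB X)
    {b c : ℝ} (hb0 : 0 ≤ b) (hb : b ≤ 1 / 2) (hab : 2 * b ^ 2 < A ^ 2 + a ^ 2) (hc0 : 0 ≤ c) (hc : c < 1) :
    ∃ C : ℝ, 0 < C ∧ ∀ (T : ℝ) (u : ℂ), 2 ≤ T → ‖u‖ = 1 → ∀ S : Finset ℂ,
      (∀ z ∈ S, FM X m g u z = 0 ∧ 0 < z.im ∧ z.im ≤ T ∧ (z.re ≠ 0 ∨ deriv (FM X m g u) z = 0)) →
      ∑ z ∈ S, (analyticOrderNatAt (FM X m g u) z : ℝ) ≤ C * T ^ (1 - c * b) * Real.log T ^ 2 := by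
  classical
  obtain ⟨R0, c0, hR0, hc0', hfar⟩ := far h hfr hm
  obtain ⟨K, hK, hcnt⟩ := cnt h hcf hm hR0 hc0' hfar
  obtain ⟨Y0, hY0, hloc⟩ := loc h hcf hm hb0 hb hab hR0
  obtain ⟨C1, hC1, hlow⟩ := low hK hcnt Y0
  obtain ⟨C, hC, hfz⟩ := far_zeros h hoff hc0 hc 3 (by norm_num)
  have hl2 : 0 < Real.log 2 := Real.log_pos (by norm_num)
  refine ⟨C * (4 * K) + C1 / Real.log 2 ^ 2, by positivity, fun T u hT hu S hS => ?_⟩
  have hT0 : 0 < T := by linarith
  have hlT : Real.log 2 ≤ Real.log T := Real.log_le_log (by norm_num) hT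
  have hlT0 : 0 < Real.log T := lt_of_lt_of_le hl2 hlT
  obtain ⟨B, hB1, hB2, hB3⟩ := hfz b T hb0 (by linarith) hT
  have hcb : 0 ≤ 1 - c * b := by nlinarith
  have hP1 : 1 ≤ T ^ (1 - c * b) := Real.one_le_rpow (by linarith) hcb
  have hstrip : ∀ z ∈ S, |z.re| ≤ R0 := fun z hz => (strip_of h hm hR0 hc0' hfar hu (hS z hz).1).le
  have hsplit : ∑ z ∈ S, (analyticOrderNatAt (FM X m g u) z : ℝ) =
      ∑ z ∈ S.filter (fun z => z.im ≤ Y0), (analyticOrderNatAt (FM X m g u) z : ℝ) +
      ∑ z ∈ S.filter (fun z => ¬ z.im ≤ Y0), (analyticOrderNatAt (FM X m g u) z : ℝ) :=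
    (Finset.sum_filter_add_sum_filter_not S _ _).symm
  have h1 : ∑ z ∈ S.filter (fun z => z.im ≤ Y0), (analyticOrderNatAt (FM X m g u) z : ℝ) ≤ C1 := by
    refine hlow u hu _ fun z hz => ?_
    obtain ⟨g1, g2⟩ := Finset.mem_filter.1 hz
    exact ⟨hstrip z g1, (hS z g1).2.1, g2⟩
  have h2 : ∑ z ∈ S.filter (fun z => ¬ z.im ≤ Y0), (analyticOrderNatAt (FM X m g u) z : ℝ) ≤
      B.card * (K * (4 * Real.log T)) := by
    refine sum_split _ B (fun z => (analyticOrderNatAt (FM X m g u) z : ℝ)) (fun _ _ => Nat.cast_nonneg _)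
      (fun z ρ => |ρ.im - z.im| ≤ 3) (by
        intro z hz
        obtain ⟨g1, g2⟩ := Finset.mem_filter.1 hz
        obtain ⟨g3, g4, g5, g6⟩ := hS z g1
        by_contra hcon
        push Not at hcon
        have hgd : Gd X b z.im := by
          intro ρ hρ h5
          by_contra h6
          push Not at h6
          obtain ⟨h7, h8⟩ := abs_le.1 h5
          have h9 := hcon ρ (hB1 ρ hρ h6.le (by linarith) (by linarith))
          linarith
        have e : z = (z.re + z.im * I : ℂ) := (Complex.re_add_im z).symm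
        have g7 := hloc z.im (not_le.1 g2).le hgd u hu z.re (hstrip z g1) (by rw [← e]; exact g3)
        rw [← e] at g7
        rcases g6 with g6 | g6
        · exact g6 g7.1
        · exact g7.2 g6)
      (by
        intro ρ hρ
        obtain ⟨g1, g2, g3, g4⟩ := hB2 ρ hρ
        have h5 := hcnt u (max ρ.im 0) hu (le_max_right _ _)
          ((S.filter (fun z => ¬ z.im ≤ Y0)).filter (fun z => |ρ.im - z.im| ≤ 3)) (by
          intro z hz
          obtain ⟨h5, h6⟩ := Finset.mem_filter.1 hz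
          obtain ⟨h7, h8⟩ := Finset.mem_filter.1 h5
          refine ⟨hstrip z h7, ?_⟩
          have h9 := (hS z h7).2.1
          obtain ⟨h10, h11⟩ := abs_le.1 h6
          rcases le_total ρ.im 0 with h12 | h12
          · rw [max_eq_right h12, abs_le]
            constructor <;> linarith
          · rw [max_eq_left h12, abs_le]
            constructor <;> linarith)
        refine h5.trans (mul_le_mul_of_nonneg_left ?_ hK.le)
        have h6 : max ρ.im 0 ≤ T + 3 := max_le g4 (by linarith)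
        have h7 : 3 + max ρ.im 0 ≤ T ^ 4 := by
          have e : T ^ 4 = T * T ^ 3 := by ring
          have h8 : (2 : ℝ) ^ 3 ≤ T ^ 3 := pow_le_pow_left₀ (by norm_num) hT 3
          rw [e]
          nlinarith
        calc Real.log (3 + max ρ.im 0) ≤ Real.log (T ^ 4) := Real.log_le_log (by positivity) h7
          _ = 4 * Real.log T := by rw [Real.log_pow]; norm_num)
  rw [hsplit]
  have h3 : C1 ≤ C1 / Real.log 2 ^ 2 * T ^ (1 - c * b) * Real.log T ^ 2 := by
    calc C1 = C1 / Real.log 2 ^ 2 * 1 * Real.log 2 ^ 2 := by field_simp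
      _ ≤ _ := by gcongr
  calc _ ≤ C1 + B.card * (K * (4 * Real.log T)) := add_le_add h1 h2
    _ ≤ C1 / Real.log 2 ^ 2 * T ^ (1 - c * b) * Real.log T ^ 2 +
        (C * T ^ (1 - c * b) * Real.log T) * (K * (4 * Real.log T)) := by gcongr
    _ = _ := by ring

theorem order_scale {F : ℂ → ℂ} (hF : Differentiable ℂ F) {ρ : ℂ} (hρ : ρ ≠ 0) (s : ℂ) :
    analyticOrderNatAt (fun z => F (ρ * z)) s = analyticOrderNatAt F (ρ * s) := by
  have hp : AnalyticAt ℂ (fun z : ℂ => ρ * z) s := by fun_prop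
  have hp' : deriv (fun z : ℂ => ρ * z) s ≠ 0 := by
    have h1 : HasDerivAt (fun z : ℂ => ρ * z) ρ s := by simpa using (hasDerivAt_id s).const_mul ρ
    rw [h1.deriv]
    exact hρ
  have h2 : analyticOrderAt (F ∘ fun z => ρ * z) s = analyticOrderAt F (ρ * s) :=
    analyticOrderAt_comp_of_deriv_ne_zero hp hp'
  unfold analyticOrderNatAt
  rw [← h2]
  rfl

/-- **All zeros.** -/
theorem tot (h : Sy X) (hcf : CF κ H X Z) (hfr : FR X) (hm : MD m g a A) :
    ∃ c T0 : ℝ, 0 < c ∧ 2 ≤ T0 ∧ ∀ (T : ℝ) (u : ℂ), T0 ≤ T → ‖u‖ = 1 →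
      ∃ S : Finset ℂ, (∀ z ∈ S, FM X m g u z = 0 ∧ 0 < z.im ∧ z.im ≤ T) ∧
        c * T * Real.log T ≤ ∑ z ∈ S, (analyticOrderNatAt (FM X m g u) z : ℝ) := by
  classical
  have hκ := hcf.κ_pos
  have ha0 := hm.a0
  have hA0 := hm.A0
  obtain ⟨R0, c0, hR0, hc0, hfar⟩ := far h hfr hm
  obtain ⟨ρ, hρ⟩ : ∃ ρ : ℝ, ρ = 2 * R0 := ⟨_, rfl⟩
  have hρ1 : 4 ≤ ρ := by rw [hρ]; linarith
  obtain ⟨N, hN⟩ : ∃ N : ℝ, N = ∫ x, ‖g x‖ ∂m := ⟨_, rfl⟩
  have hN0 : 0 ≤ N := by rw [hN]; exact integral_nonneg fun x => norm_nonneg _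
  obtain ⟨C1, hC1, hU⟩ := Pool.Agent.Y423.GL.upX hcf
  obtain ⟨C, hC⟩ : ∃ C : ℝ, C = A + C1 + 2 / κ := ⟨_, rfl⟩
  have hκi : 0 < 2 / κ := by positivity
  have hC0 : 0 ≤ C := by rw [hC]; positivity
  obtain ⟨R, hR⟩ : ∃ R : ℝ, R = 8 * C + 1 := ⟨_, rfl⟩
  have hR1 : 1 ≤ R := by rw [hR]; linarith
  obtain ⟨R', hR'⟩ : ∃ R' : ℝ, R' = ρ * (2 * R + 2 * (1600 * R)) + A + 1 := ⟨_, rfl⟩
  have hR'1 : 1 ≤ R' := by
    have : 0 ≤ ρ * (2 * R + 2 * (1600 * R)) := by positivity
    rw [hR']
    linarith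
  obtain ⟨T1, hT1, hup⟩ := hU R' hR'1
  obtain ⟨T2, hT2, hlo⟩ := Pool.Agent.Y423.GL.loX hcf (2 * R * ρ + A) (by nlinarith) (1 / 2) (by norm_num)
  obtain ⟨T3, hT3⟩ : ∃ T3 : ℝ, T3 = max (2 * T1) (2 * T2) := ⟨_, rfl⟩
  obtain ⟨T4, hT4⟩ : ∃ T4 : ℝ, T4 = max (2 * (2 * N + 1)) (2 / c0) := ⟨_, rfl⟩
  refine ⟨κ * R * ρ / 8 / (16 * (ρ * (1600 * R))), max (max T3 T4) (max 16 (16 * (ρ * (1600 * R)) + 4)), by positivity,
    le_trans (by norm_num) ((le_max_left (16 : ℝ) _).trans (le_max_right _ _)), ?_⟩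
  intro T u hT hu
  have g12 : T3 ≤ T := ((le_max_left _ _).trans (le_max_left _ _)).trans hT
  have g34 : T4 ≤ T := ((le_max_right _ _).trans (le_max_left _ _)).trans hT
  have g1 : 2 * T1 ≤ T := by rw [hT3] at g12; exact (le_max_left _ _).trans g12
  have g2 : 2 * T2 ≤ T := by rw [hT3] at g12; exact (le_max_right _ _).trans g12
  have g3 : 2 * (2 * N + 1) ≤ T := by rw [hT4] at g34; exact (le_max_left _ _).trans g34
  have g4 : 2 / c0 ≤ T := by rw [hT4] at g34; exact (le_max_right _ _).trans g34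
  have g5 : 16 ≤ T := ((le_max_left _ _).trans (le_max_right _ _)).trans hT
  have g6 : 16 * (ρ * (1600 * R)) + 4 ≤ T := ((le_max_right _ _).trans (le_max_right _ _)).trans hT
  have hT0 : 0 < T := by linarith
  have hlT : 0 < Real.log T := Real.log_pos (by linarith)
  have hFd := FM_diff h hm u
  have hρc : (ρ : ℂ) ≠ 0 := by
    exact_mod_cast (show ρ ≠ 0 by linarith)
  obtain ⟨S, hS1, hS2⟩ := windows (f := FM X m g u) (T := T) (ρ := ρ * (1600 * R)) (w := κ * Real.log T * R * ρ / 8)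
    (by positivity) g6 (by positivity) (by
    intro t ht1 ht2
    have htpos : 0 < t := by linarith
    have hlt : Real.log T ≤ 2 * Real.log t := by
      have h3 : Real.log T ≤ Real.log (t ^ 2) := Real.log_le_log hT0 (by nlinarith)
      rw [Real.log_pow] at h3
      push_cast at h3
      linarith
    have hlt0 : 0 < Real.log t := by linarith
    obtain ⟨L, hL⟩ : ∃ L : ℝ, L = ρ * (κ * Real.log t) := ⟨_, rfl⟩
    have hL0 : 0 < L := by rw [hL]; positivity
    have hρ0 : 0 < ρ := by linarith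
    obtain ⟨a1, a2, a3, a4⟩ := hlo t (((2 * R * ρ + A : ℝ) : ℂ)) (by linarith) (by
        rw [Complex.norm_real, Real.norm_of_nonneg (by positivity)]) (by
        rw [Complex.ofReal_re]
        nlinarith)
    have hρre : ∀ z : ℂ, ((ρ : ℂ) * z).re = ρ * z.re := fun z => by simp
    have hρim : ∀ z : ℂ, ((ρ : ℂ) * z).im = ρ * z.im := fun z => by simp
    have hcnt := Pool.Agent.W670.SD.count (f := fun z => FM X m g u (ρ * z)) (hFd.comp (by fun_prop)) (R := R)
      (ρ := 1600 * R) (L := L) (A := ‖H (I * t)‖) (C := C) (t := t / ρ) hR1 hC0 (by rw [hR]; linarith) le_rfl hL0 a1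
      (by
        intro z hz
        have hre := abs_le.1 ((Complex.abs_re_le_norm _).trans hz)
        have him := abs_le.1 ((Complex.abs_im_le_norm _).trans hz)
        have e1 : (z - (I * ((t / ρ : ℝ) : ℂ) + ((2 * R : ℝ) : ℂ))).re = z.re - 2 * R := by simp
        have e2 : (z - (I * ((t / ρ : ℝ) : ℂ) + ((2 * R : ℝ) : ℂ))).im = z.im - t / ρ := by
          rw [Complex.sub_im, Complex.add_im, Complex.mul_im, Complex.I_re, Complex.I_im, Complex.ofReal_re,
            Complex.ofReal_im, Complex.ofReal_im]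
          ring
        rw [e1] at hre
        rw [e2] at him
        have hre2 : |z.re| ≤ 2 * R + 2 * (1600 * R) := by
          rw [abs_le]
          constructor <;> linarith
        have him2 : |ρ * z.im - t| ≤ ρ * (2 * (1600 * R)) := by
          have e : ρ * z.im - t = ρ * (z.im - t / ρ) := by field_simp
          rw [e, abs_mul, abs_of_pos hρ0]
          refine mul_le_mul_of_nonneg_left ?_ hρ0.le
          rw [abs_le]
          exact him
        have key : ∀ x : ℝ, -A ≤ x → x ≤ A →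
            ‖X (ρ * z + x)‖ ≤ ‖H (I * t)‖ * Real.exp (κ * Real.log t * (ρ * |z.re| + A + C1)) := by
          intro x hx1 hx2
          have hb : |ρ * z.re + x| ≤ ρ * |z.re| + A := by
            refine (abs_add_le _ _).trans ?_
            rw [abs_mul, abs_of_pos hρ0]
            have : |x| ≤ A := abs_le.2 ⟨hx1, hx2⟩
            linarith
          have hb2 : ρ * |z.re| ≤ ρ * (2 * R + 2 * (1600 * R)) := mul_le_mul_of_nonneg_left hre2 hρ0.le
          refine (hup t (ρ * z + x) (by linarith) ?_ ?_).trans ?_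
          · rw [Complex.add_re, Complex.ofReal_re, hρre, hR']
            linarith
          · rw [Complex.add_im, Complex.ofReal_im, add_zero, hρim, hR']
            have : ρ * (2 * (1600 * R)) ≤ ρ * (2 * R + 2 * (1600 * R)) :=
              mul_le_mul_of_nonneg_left (by linarith) hρ0.le
            linarith
          · rw [Complex.add_re, Complex.ofReal_re, hρre]
            gcongr
        show ‖FM X m g u (ρ * z)‖ ≤ _
        rw [FM_eq h hm]
        refine (norm_add_le _ _).trans ?_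
        rw [norm_mul, hu, one_mul]
        have k1 := GG_le (X := X) hm (z := ρ * z)
          (Q := ‖H (I * t)‖ * Real.exp (κ * Real.log t * (ρ * |z.re| + A + C1)))
          (fun x hx1 hx2 => key x (by linarith) hx2)
        have k2 := GS_le (X := X) hm (z := ρ * z)
          (Q := ‖H (I * t)‖ * Real.exp (κ * Real.log t * (ρ * |z.re| + A + C1)))
          (fun x hx1 hx2 => by
            have := key (-x) (by linarith) (by linarith)
            have e : ρ * z + ((-x : ℝ) : ℂ) = ρ * z - x := by push_cast; ring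
            rwa [e] at this)
        rw [← hN] at k1 k2
        have h8 : 2 * N ≤ Real.exp (Real.log t) := by
          rw [Real.exp_log htpos]
          linarith
        calc _ ≤ (2 * N) * (‖H (I * t)‖ * Real.exp (κ * Real.log t * (ρ * |z.re| + A + C1))) := by linarith
          _ ≤ Real.exp (Real.log t) * (‖H (I * t)‖ * Real.exp (κ * Real.log t * (ρ * |z.re| + A + C1))) := by gcongr
          _ = ‖H (I * t)‖ * Real.exp (Real.log t + κ * Real.log t * (ρ * |z.re| + A + C1)) := by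
            rw [Real.exp_add]; ring
          _ ≤ _ := by
            refine mul_le_mul_of_nonneg_left (Real.exp_le_exp.2 ?_) a1.le
            rw [hL]
            have e3 : Real.log t = κ * Real.log t * (1 / κ) := by field_simp
            have e4 : Real.log t + κ * Real.log t * (ρ * |z.re| + A + C1) =
                κ * Real.log t * (ρ * |z.re| + (A + C1 + 1 / κ)) := by
              field_simp
              ring
            have e5 : ρ * (κ * Real.log t) * (|z.re| + C) = κ * Real.log t * (ρ * |z.re| + ρ * C) := by ring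
            rw [e4, e5]
            refine mul_le_mul_of_nonneg_left ?_ (by positivity)
            have h9 : A + C1 + 1 / κ ≤ C := by
              rw [hC]
              have : 1 / κ ≤ 2 / κ := by
                rw [div_le_div_iff_of_pos_right hκ]
                norm_num
              linarith
            have h10 : C ≤ ρ * C := by nlinarith
            linarith)
      (by
        have e0 : ((ρ : ℂ) * (I * ((t / ρ : ℝ) : ℂ) + ((2 * R : ℝ) : ℂ))) = ((2 * R * ρ : ℝ) : ℂ) + t * I := by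
          push_cast
          field_simp
          ring
        show _ ≤ ‖FM X m g u (ρ * (I * ((t / ρ : ℝ) : ℂ) + ((2 * R : ℝ) : ℂ)))‖
        rw [e0]
        have k1 := hfar u hu (((2 * R * ρ : ℝ) : ℂ) + t * I) (by
          rw [Complex.add_re, Complex.ofReal_re, Complex.mul_re, Complex.I_re, Complex.I_im, Complex.ofReal_im,
            Complex.ofReal_re, hρ]
          nlinarith)
        refine le_trans ?_ k1
        have e1 : ((2 * R * ρ : ℝ) : ℂ) + t * I + A = I * t + ((2 * R * ρ + A : ℝ) : ℂ) := by push_cast; ring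
        rw [e1]
        refine le_trans ?_ (mul_le_mul_of_nonneg_left a4 hc0.le)
        rw [Complex.ofReal_re, mul_left_comm]
        refine mul_le_mul_of_nonneg_left ?_ a1.le
        have h8 : Real.exp (-Real.log t) ≤ c0 := by
          rw [Real.exp_neg, Real.exp_log htpos, inv_le_comm₀ htpos hc0, ← one_div]
          have e : 2 / c0 = 2 * (1 / c0) := by ring
          rw [e] at g4
          linarith
        refine le_trans ?_ (mul_le_mul_of_nonneg_right h8 (Real.exp_pos _).le)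
        rw [← Real.exp_add]
        apply Real.exp_le_exp.2
        rw [hL]
        have e5 : ρ * (κ * Real.log t) * (2 * R - C) = κ * Real.log t * (2 * R * ρ - ρ * C) := by ring
        have e6 : -Real.log t + (κ * Real.log t * (2 * R * ρ + A) - Real.log t) =
            κ * Real.log t * (2 * R * ρ + A - 2 / κ) := by
          field_simp
          ring
        rw [e5, e6]
        refine mul_le_mul_of_nonneg_left ?_ (by positivity)
        have h9 : 2 / κ ≤ C := by rw [hC]; linarith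
        have h10 : C ≤ ρ * C := by nlinarith
        linarith)
      (by
        show ‖FM X m g u (ρ * (I * ((t / ρ : ℝ) : ℂ) - ((2 * R : ℝ) : ℂ)))‖ =
          ‖FM X m g u (ρ * (I * ((t / ρ : ℝ) : ℂ) + ((2 * R : ℝ) : ℂ)))‖
        have e : ((ρ : ℂ) * (I * ((t / ρ : ℝ) : ℂ) - ((2 * R : ℝ) : ℂ))) =
            -(conj ((ρ : ℂ) * (I * ((t / ρ : ℝ) : ℂ) + ((2 * R : ℝ) : ℂ)))) := by
          rw [map_mul, map_add, map_mul, Complex.conj_I, Complex.conj_ofReal, Complex.conj_ofReal, Complex.conj_ofReal]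
          ring
        rw [e]
        exact FM_norm_symm h hm hu _)
      (by
        show ‖FM X m g u (ρ * (I * ((t / ρ : ℝ) : ℂ) - ((R : ℝ) : ℂ)))‖ =
          ‖FM X m g u (ρ * (I * ((t / ρ : ℝ) : ℂ) + ((R : ℝ) : ℂ)))‖
        have e : ((ρ : ℂ) * (I * ((t / ρ : ℝ) : ℂ) - ((R : ℝ) : ℂ))) =
            -(conj ((ρ : ℂ) * (I * ((t / ρ : ℝ) : ℂ) + ((R : ℝ) : ℂ)))) := by
          rw [map_mul, map_add, map_mul, Complex.conj_I, Complex.conj_ofReal, Complex.conj_ofReal, Complex.conj_ofReal]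
          ring
        rw [e]
        exact FM_norm_symm h hm hu _)
      (fun z hz => by
        have h1 := strip_of h hm hR0 hc0 hfar hu (z := ρ * z) hz
        rw [hρre, abs_mul, abs_of_pos hρ0, hρ] at h1
        nlinarith [abs_nonneg z.re])
    obtain ⟨S, hS1, hS2⟩ := hcnt
    refine ⟨S.image (fun z => (ρ : ℂ) * z), ?_, ?_⟩
    · intro w hw
      rw [Finset.mem_image] at hw
      obtain ⟨z, hz, rfl⟩ := hw
      obtain ⟨h1, h2⟩ := hS1 z hz
      refine ⟨h1, ?_⟩
      rw [hρim]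
      have e : ρ * z.im - t = ρ * (z.im - t / ρ) := by field_simp
      rw [e, abs_mul, abs_of_pos hρ0]
      exact mul_le_mul_of_nonneg_left h2 hρ0.le
    · rw [Finset.sum_image (fun x _ y _ hxy => mul_left_cancel₀ hρc hxy)]
      have h1 : κ * Real.log T * R * ρ / 8 ≤ L * R / 4 := by
        rw [hL]
        have h2 : κ * R * ρ * Real.log T ≤ κ * R * ρ * (2 * Real.log t) := by gcongr
        linarith
      refine h1.trans (hS2.trans (le_of_eq ?_))
      refine Finset.sum_congr rfl fun s _ => ?_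
      rw [order_scale hFd hρc])
  refine ⟨S, hS1, le_trans (le_of_eq ?_) hS2⟩
  field_simp

end Pool.Agent.Q246.SB
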