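import Pool.Agent.Q246.SB.Exc

set_option autoImplicit false

/-!
# Averages of shifts over a measure: final form
-/

namespace Pool.Agent.Q246.SB

open Complex Filter Topology Set Metric MeasureTheory
open Pool.Agent.Y671.GL
open Pool.Agent.Q246.NC
open Pool.Agent.Q246.SA
open scoped ComplexConjugate

theorem fr_of_full {κ : ℝ} {Λ X : ℂ → ℂ} (h : Full κ Λ) {v : ℂ} (hv : v ≠ 0)
    (hX : ∀ z, X z = v * Λ (1 / 2 + z)) : FR X := by
  obtain ⟨θ, d, N, cn, G, hθ, hP⟩ := h.pk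
  obtain ⟨μ, L, u, -, -⟩ := hP
  intro M
  obtain ⟨K, hK⟩ : ∃ K : ℝ, K = M + d * Pool.Agent.W355.UN.Bst 1 := ⟨_, rfl⟩
  refine ⟨max 3 (4 * Real.exp (2 * |K| + 10)), fun z hz => ?_⟩
  have h3 : 3 ≤ z.re := (le_max_left _ _).trans hz
  have hre : (1 / 2 + z : ℂ).re = 1 / 2 + z.re := by simp
  have hs : 1 + θ < (1 / 2 + z : ℂ).re := by rw [hre]; linarith
  have h0 := u.Xne hs
  have h1 := u.logD hs
  have h2 := u.bd 1 one_pos le_rfl (1 / 2 + z) (by rw [hre]; linarith)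
  have h4 := u.gp.gr K (1 / 2 + z) (by rw [hre]; linarith) (by
    rw [hre]
    have := (le_max_right 3 (4 * Real.exp (2 * |K| + 10))).trans hz
    linarith)
  have hdX : HasDerivAt X (v * deriv Λ (1 / 2 + z)) z := by
    have e : X = fun z => v * Λ (1 / 2 + z) := funext hX
    rw [e]
    exact (((h.cls.diff _).hasDerivAt).comp_const_add _ _).const_mul v
  have hld : logDeriv X z = logDeriv Λ (1 / 2 + z) := by
    rw [logDeriv_apply, logDeriv_apply, hdX.deriv, hX]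
    field_simp
  refine ⟨?_, ?_⟩
  · rw [hX]
    exact mul_ne_zero hv h0
  · rw [hld, h1, Complex.add_re]
    have h5 := (abs_le.1 ((Complex.abs_re_le_norm _).trans h2)).1
    rw [hK] at h4
    linarith

variable {X H Z : ℂ → ℂ} {κ : ℝ} {m : Measure ℝ} {g : ℝ → ℂ} {a A : ℝ}

theorem MD.conj (h : MD m g a A) : MD m (fun x => (starRingEnd ℂ) (g x)) a A := by
  refine ⟨h.a0, h.A0, h.supp, h.intc, ?_⟩
  have h1 := h.atom
  intro h2
  apply h1
  rcases mul_eq_zero.1 h2 with h3 | h3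
  · rw [h3, zero_mul]
  · rw [map_eq_zero] at h3
    rw [h3, mul_zero]

/-- zeros in a compact set -/
theorem fin_box (h : Sy X) (hfr : FR X) (hm : MD m g a A) {u : ℂ} (hu : ‖u‖ = 1) (Y1 Y2 : ℝ) :
    {z : ℂ | FM X m g u z = 0 ∧ Y1 ≤ z.im ∧ z.im ≤ Y2}.Finite := by
  obtain ⟨R0, c0, hR0, hc0, hfar⟩ := far h hfr hm
  have hne : ∃ z, FM X m g u z ≠ 0 := by
    refine ⟨(R0 : ℂ), fun h0 => ?_⟩
    have := strip_of h hm hR0 hc0 hfar hu h0
    rw [Complex.ofReal_re, abs_of_pos (by linarith)] at this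
    exact lt_irrefl _ this
  have hK : IsCompact (Icc (-R0) R0 ×ℂ Icc Y1 Y2) := isCompact_Icc.reProdIm isCompact_Icc
  refine (Pool.Agent.W186.LH.zfin (FM_diff h hm u) hne hK).subset ?_
  rintro z ⟨h1, h2, h3⟩
  have := abs_le.1 (strip_of h hm hR0 hc0 hfar hu h1).le
  exact ⟨⟨⟨this.1, this.2⟩, h2, h3⟩, h1⟩

theorem FM_fin (h : Sy X) (hfr : FR X) (hm : MD m g a A) {u : ℂ} (hu : ‖u‖ = 1) (T : ℝ) :
    (ZS (FM X m g u) T).Finite := by
  refine (fin_box h hfr hm hu 0 T).subset ?_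
  rintro z ⟨h1, h2, h3⟩
  exact ⟨h1, h2.le, h3⟩

/-- the exceptional zeros -/
def EE (F : ℂ → ℂ) (s0 : ℝ) : Set ℂ := {z | F z = 0 ∧ (z.re ≠ s0 ∨ deriv F z = 0)}

theorem up_fin (h : Sy X) (hcf : CF κ H X Z) (hfr : FR X) (hm : MD m g a A)
    (hcase : 1 / 2 < A ^ 2 + a ^ 2 ∨ ∀ z, X z = 0 → z.re = 0) {u : ℂ} (hu : ‖u‖ = 1) :
    {z | z ∈ EE (FM X m g u) 0 ∧ 0 ≤ z.im}.Finite := by
  obtain ⟨R0, c0, hR0, hc0, hfar⟩ := far h hfr hm
  obtain ⟨b, hb0, hb, hab, hgd⟩ : ∃ b : ℝ, 0 ≤ b ∧ b ≤ 1 / 2 ∧ 2 * b ^ 2 < A ^ 2 + a ^ 2 ∧ ∀ y, Gd X b y := by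
    rcases hcase with h1 | h1
    · exact ⟨1 / 2, by norm_num, le_rfl, by linarith, fun y ρ hρ _ => h.strip ρ hρ⟩
    · refine ⟨0, le_rfl, by norm_num, ?_, fun y ρ hρ _ => by rw [h1 ρ hρ, abs_zero]⟩
      have := hm.A0
      nlinarith [sq_nonneg a]
  obtain ⟨Y0, hY0, hloc⟩ := loc h hcf hm hb0 hb hab hR0
  refine (fin_box h hfr hm hu 0 Y0).subset ?_
  rintro z ⟨⟨h1, h2⟩, h3⟩
  refine ⟨h1, h3, ?_⟩
  by_contra h4
  push Not at h4
  have e : z = (z.re + z.im * I : ℂ) := (Complex.re_add_im z).symm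
  have h5 := hloc z.im h4.le (hgd _) u hu z.re (strip_of h hm hR0 hc0 hfar hu h1).le (by rw [← e]; exact h1)
  rw [← e] at h5
  rcases h2 with h2 | h2
  · exact h2 h5.1
  · exact h5.2 h2

theorem FM_conj (h : Sy X) {ε : ℂ} (hX : ∀ z, X (-z) = ε * X z) (m : Measure ℝ) (g : ℝ → ℂ) (u z : ℂ) :
    FM X m g u z = ε * conj (FM X m (fun x => conj (g x)) (conj u) (conj z)) := by
  have hc : ∀ w : ℂ, X w = ε * conj (X (conj w)) := by
    intro w
    have h1 := h.symm (conj w)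
    rw [Complex.conj_conj] at h1
    rw [← h1, ← hX, neg_neg]
  unfold FM
  rw [← integral_conj, ← integral_const_mul]
  refine integral_congr_ae (Eventually.of_forall fun x => ?_)
  show g x * X (z + x) + u * (conj (g x) * X (z - x)) =
    ε * conj (conj (g x) * X (conj z + x) + conj u * (conj (conj (g x)) * X (conj z - x)))
  rw [hc (z + x), hc (z - x)]
  simp only [map_add, map_sub, map_mul, Complex.conj_conj, Complex.conj_ofReal]
  ring

theorem EE_conj (h : Sy X) {ε : ℂ} (hε : ε ≠ 0) (hX : ∀ z, X (-z) = ε * X z) (hm : MD m g a A) {u z : ℂ}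
    (hz : z ∈ EE (FM X m g u) 0) : conj z ∈ EE (FM X m (fun x => conj (g x)) (conj u)) 0 := by
  obtain ⟨h1, h2⟩ := hz
  refine ⟨?_, ?_⟩
  · rw [FM_conj h hX, mul_eq_zero] at h1
    have := h1.resolve_left hε
    rwa [map_eq_zero] at this
  · rw [Complex.conj_re]
    rcases h2 with h2 | h2
    · exact Or.inl h2
    · right
      have e : FM X m g u = fun w => ε * (conj ∘ FM X m (fun x => conj (g x)) (conj u) ∘ conj) w :=
        funext fun w => FM_conj h hX m g u w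
      have hd : HasDerivAt (FM X m g u) (ε * conj (deriv (FM X m (fun x => conj (g x)) (conj u)) (conj z))) z := by
        rw [e]
        have h3 := ((FM_diff h hm.conj (conj u)) (conj z)).hasDerivAt.conj_conj
        rw [Complex.conj_conj] at h3
        exact h3.const_mul ε
      rw [hd.deriv, mul_eq_zero] at h2
      have := h2.resolve_left hε
      rwa [map_eq_zero] at this

/-- **All but finitely many.** -/
theorem all_fin (h : Sy X) (hcf : CF κ H X Z) (hfr : FR X) {ε : ℂ} (hε : ε ≠ 0) (hX : ∀ z, X (-z) = ε * X z)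
    (hm : MD m g a A) (hcase : 1 / 2 < A ^ 2 + a ^ 2 ∨ ∀ z, X z = 0 → z.re = 0) {u : ℂ} (hu : ‖u‖ = 1) :
    (EE (FM X m g u) 0).Finite := by
  have h1 := up_fin h hcf hfr hm hcase hu
  have h2 := (up_fin h hcf hfr hm.conj hcase (u := conj u) (by rw [Complex.norm_conj]; exact hu)).image
    (starRingEnd ℂ)
  refine (h1.union h2).subset fun z hz => ?_
  rcases le_or_gt 0 z.im with h3 | h3
  · exact Or.inl ⟨hz, h3⟩
  · refine Or.inr ⟨conj z, ⟨EE_conj h hε hX hm hz, ?_⟩, Complex.conj_conj z⟩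
    rw [Complex.conj_im]
    linarith

/-- **Almost all.** -/
theorem alm (h : Sy X) (hcf : CF κ H X Z) (hfr : FR X) (hm : MD m g a A) (hoff : OffB X) {θ : ℝ} (hθ0 : 0 ≤ θ)
    (hθ : θ < 1 / 2) (hab : 2 * θ ^ 2 < A ^ 2 + a ^ 2) :
    ∃ C : ℝ, 0 < C ∧ ∀ (u : ℂ) (T : ℝ), ‖u‖ = 1 → 2 ≤ T →
      (numL (FM X m g u) (ES 0 (FM X m g u) T) : ℝ) ≤ C * T ^ (-θ) * numL (FM X m g u) (ZS (FM X m g u) T) ∧
      (numL (FM X m g u) (ES 0 (FM X m g u) T) : ℝ) ≤ C * T ^ (1 - θ) := by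
  obtain ⟨b, hbθ, hb, hb2⟩ : ∃ b : ℝ, θ < b ∧ b ≤ 1 / 2 ∧ 2 * b ^ 2 < A ^ 2 + a ^ 2 := by
    have h1 : ∀ᶠ b : ℝ in 𝓝[>] θ, θ < b := self_mem_nhdsWithin
    have h2 : ∀ᶠ b : ℝ in 𝓝[>] θ, b < 1 / 2 := nhdsWithin_le_nhds (gt_mem_nhds hθ)
    have hc : Continuous fun b : ℝ => 2 * b ^ 2 := by fun_prop
    have h3 : Tendsto (fun b : ℝ => 2 * b ^ 2) (𝓝[>] θ) (𝓝 (2 * θ ^ 2)) :=
      (hc.tendsto θ).mono_left nhdsWithin_le_nhds
    have h4 := (tendsto_order.1 h3).2 _ hab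
    obtain ⟨b, g1, g2, g3⟩ := (h1.and (h2.and h4)).exists
    exact ⟨b, g1, g2.le, g3⟩
  have hb0 : 0 < b := by linarith
  obtain ⟨c, hc⟩ : ∃ c : ℝ, c = (θ / b + 1) / 2 := ⟨_, rfl⟩
  have hθb : θ / b < 1 := by rwa [div_lt_one hb0]
  have hθb0 : 0 ≤ θ / b := by positivity
  have hc0 : 0 ≤ c := by rw [hc]; positivity
  have hc1 : c < 1 := by rw [hc]; linarith
  have hcb : c * b = (θ + b) / 2 := by rw [hc]; field_simp
  obtain ⟨ε, hε⟩ : ∃ ε : ℝ, ε = (b - θ) / 4 := ⟨_, rfl⟩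
  have hε0 : 0 < ε := by rw [hε]; linarith
  obtain ⟨C1, hC1, hexc⟩ := exc h hcf hfr hm hoff hb0.le hb hb2 hc0 hc1
  obtain ⟨c2, T0, hc2, hT0, htot⟩ := tot h hcf hfr hm
  have hl2 : 0 < Real.log 2 := Real.log_pos (by norm_num)
  obtain ⟨C2, hC2⟩ : ∃ C2 : ℝ, C2 = C1 / ε ^ 2 := ⟨_, rfl⟩
  have hC20 : 0 < C2 := by rw [hC2]; positivity
  refine ⟨C2 + C2 / (c2 * Real.log 2) + T0, by positivity, fun u T hu hT => ?_⟩
  have hT1 : 0 < T := by linarith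
  have hlT : 0 < Real.log T := Real.log_pos (by linarith)
  have hfin := FM_fin h hfr hm hu T
  have hsub : ES 0 (FM X m g u) T ⊆ ZS (FM X m g u) T := fun z hz => hz.1
  have hfinE := hfin.subset hsub
  have hE : (numL (FM X m g u) (ES 0 (FM X m g u) T) : ℝ) ≤ C2 * T ^ (1 - θ) := by
    rw [numL_fin hfinE]
    refine (hexc T u hT hu _ fun z hz => ?_).trans ?_
    · rw [Set.Finite.mem_toFinset] at hz
      exact ⟨hz.1.1, hz.1.2.1, hz.1.2.2, hz.2⟩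
    · have h1 : Real.log T ≤ T ^ ε / ε := Real.log_le_rpow_div hT1.le hε0
      have h2 : Real.log T ^ 2 ≤ (T ^ ε / ε) ^ 2 := pow_le_pow_left₀ hlT.le h1 2
      have h3 : (T ^ ε / ε) ^ 2 = T ^ (2 * ε) / ε ^ 2 := by
        rw [div_pow, ← Real.rpow_natCast, ← Real.rpow_mul hT1.le]
        norm_num
        ring_nf
      rw [h3] at h2
      have h4 : 0 < T ^ (1 - c * b) := Real.rpow_pos_of_pos hT1 _
      calc C1 * T ^ (1 - c * b) * Real.log T ^ 2 ≤ C1 * T ^ (1 - c * b) * (T ^ (2 * ε) / ε ^ 2) := by gcongr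
        _ = C2 * (T ^ (1 - c * b) * T ^ (2 * ε)) := by rw [hC2]; ring
        _ = C2 * T ^ (1 - θ) := by
          rw [← Real.rpow_add hT1]
          congr 2
          rw [hcb, hε]
          ring
  have hP : 0 < T ^ (-θ) := Real.rpow_pos_of_pos hT1 _
  have hPT : T ^ (1 - θ) = T * T ^ (-θ) := by
    rw [sub_eq_add_neg, Real.rpow_add hT1, Real.rpow_one]
  have hNZ : (0 : ℝ) ≤ numL (FM X m g u) (ZS (FM X m g u) T) := Nat.cast_nonneg _
  constructor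
  · rcases le_or_gt T0 T with h5 | h5
    · obtain ⟨S, hS1, hS2⟩ := htot T u h5 hu
      have h6 : c2 * T * Real.log T ≤ numL (FM X m g u) (ZS (FM X m g u) T) := by
        refine hS2.trans ?_
        rw [numL_fin hfin]
        refine Finset.sum_le_sum_of_subset_of_nonneg ?_ fun _ _ _ => Nat.cast_nonneg _
        intro z hz
        rw [Set.Finite.mem_toFinset]
        exact hS1 z hz
      have h7 : Real.log 2 ≤ Real.log T := Real.log_le_log (by norm_num) hT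
      have h8 : c2 * T * Real.log 2 ≤ numL (FM X m g u) (ZS (FM X m g u) T) := by
        refine le_trans ?_ h6
        gcongr
      calc (numL (FM X m g u) (ES 0 (FM X m g u) T) : ℝ) ≤ C2 * T ^ (1 - θ) := hE
        _ = C2 / (c2 * Real.log 2) * T ^ (-θ) * (c2 * T * Real.log 2) := by
            rw [hPT]
            field_simp
        _ ≤ C2 / (c2 * Real.log 2) * T ^ (-θ) * numL (FM X m g u) (ZS (FM X m g u) T) := by gcongr
        _ ≤ _ := by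
            have g1 : 0 ≤ C2 + T0 := by positivity
            have g2 : 0 ≤ T ^ (-θ) * numL (FM X m g u) (ZS (FM X m g u) T) := by positivity
            nlinarith [mul_nonneg g1 g2]
    · have h6 : (numL (FM X m g u) (ES 0 (FM X m g u) T) : ℝ) ≤ numL (FM X m g u) (ZS (FM X m g u) T) :=
        numL_mono hfin hsub
      have h7 : 1 / T0 ≤ T ^ (-θ) := by
        calc 1 / T0 ≤ 1 / T := one_div_le_one_div_of_le hT1 h5.le
          _ = T ^ (-1 : ℝ) := by rw [Real.rpow_neg_one, one_div]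
          _ ≤ _ := Real.rpow_le_rpow_of_exponent_le (by linarith) (by linarith)
      have h9 : 1 ≤ T0 * T ^ (-θ) := by
        calc (1 : ℝ) = T0 * (1 / T0) := by field_simp
          _ ≤ _ := by gcongr
      have h10 : 1 ≤ (C2 + C2 / (c2 * Real.log 2) + T0) * T ^ (-θ) := by
        have g1 : 0 ≤ C2 + C2 / (c2 * Real.log 2) := by positivity
        nlinarith [mul_nonneg g1 hP.le]
      refine h6.trans ?_
      exact le_mul_of_one_le_left hNZ h10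
  · refine hE.trans ?_
    have g1 : 0 ≤ C2 / (c2 * Real.log 2) + T0 := by positivity
    have g2 : 0 ≤ T ^ (1 - θ) := by positivity
    nlinarith [mul_nonneg g1 g2]

/-! ### the line `Re s = s0` -/

/-- the average -/
noncomputable def AvM (Λ : ℂ → ℂ) (m : Measure ℝ) (g : ℝ → ℂ) (u s : ℂ) : ℂ :=
  ∫ x, (g x * Λ (s + x) + u * (conj (g x) * Λ (s - x))) ∂m

theorem AvM_eq {Λ : ℂ → ℂ} {v0 : ℂ} {s0 : ℝ} (hX : ∀ z, Λ ((s0 : ℂ) + z) = v0 * X z) (m : Measure ℝ) (g : ℝ → ℂ)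
    (u s : ℂ) : AvM Λ m g u s = v0 * FM X m g u (s - s0) := by
  unfold AvM FM
  rw [← integral_const_mul]
  refine integral_congr_ae (Eventually.of_forall fun x => ?_)
  show g x * Λ (s + x) + u * (conj (g x) * Λ (s - x)) =
    v0 * (g x * X (s - s0 + x) + u * (conj (g x) * X (s - s0 - x)))
  have e1 : s + (x : ℂ) = (s0 : ℂ) + (s - s0 + x) := by ring
  have e2 : s - (x : ℂ) = (s0 : ℂ) + (s - s0 - x) := by ring
  rw [e1, e2, hX, hX]
  ring

theorem EE_tr {F G : ℂ → ℂ} {v : ℂ} {s0 : ℝ} (hv : v ≠ 0) (hF : Differentiable ℂ F)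
    (hG : ∀ s, G s = v * F (s - s0)) : EE G s0 ⊆ (fun z => z + (s0 : ℂ)) '' EE F 0 := by
  rintro s ⟨h1, h2⟩
  refine ⟨s - s0, ⟨?_, ?_⟩, by simp⟩
  · rw [hG] at h1
    exact (mul_eq_zero.1 h1).resolve_left hv
  · rcases h2 with h2 | h2
    · left
      rw [Complex.sub_re, Complex.ofReal_re]
      intro h3
      apply h2
      linarith
    · right
      rw [deriv_tr hF hG] at h2
      exact (mul_eq_zero.1 h2).resolve_left hv

/-- **The final theorem.** -/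
theorem avgs {κ : ℝ} {Λ₀ Λ : ℂ → ℂ} (h : Full κ Λ₀) {v0 : ℂ} (hv0 : v0 ≠ 0) {s0 : ℝ}
    (hΛ : ∀ z, Λ ((s0 : ℂ) + z) = v0 * Λ₀ (1 / 2 + z)) {ε : ℂ} (hε : ε ≠ 0)
    (hfe : ∀ z, Λ ((s0 : ℂ) - z) = ε * Λ ((s0 : ℂ) + z)) (hm : MD m g a A) :
    ((1 / 2 < A ^ 2 + a ^ 2 ∨ ∀ s, Λ s = 0 → s.re = s0) → ∀ u : ℂ, ‖u‖ = 1 → (EE (AvM Λ m g u) s0).Finite) ∧
    (∀ (u : ℂ) (T : ℝ), ‖u‖ = 1 → (ZS (AvM Λ m g u) T).Finite) ∧
    ∀ θ : ℝ, 0 ≤ θ → θ < 1 / 2 → 2 * θ ^ 2 < A ^ 2 + a ^ 2 → ∃ C : ℝ, 0 < C ∧ ∀ (u : ℂ) (T : ℝ), ‖u‖ = 1 → 2 ≤ T →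
      (numL (AvM Λ m g u) (ES s0 (AvM Λ m g u) T) : ℝ) ≤ C * T ^ (-θ) * numL (AvM Λ m g u) (ZS (AvM Λ m g u) T) ∧
      (numL (AvM Λ m g u) (ES s0 (AvM Λ m g u) T) : ℝ) ≤ C * T ^ (1 - θ) := by
  obtain ⟨v, H, X, Z, hv, hX, hcf, hsy, hoff⟩ := full_sy h
  have hfr := fr_of_full h hv hX
  have hw0 : v0 * v⁻¹ ≠ 0 := mul_ne_zero hv0 (inv_ne_zero hv)
  have hΛX : ∀ z, Λ ((s0 : ℂ) + z) = (v0 * v⁻¹) * X z := by
    intro z
    rw [hΛ, hX]
    field_simp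
  have hsym : ∀ z, X (-z) = ε * X z := by
    intro z
    have h1 := hfe z
    rw [sub_eq_add_neg, hΛX, hΛX, mul_left_comm] at h1
    exact mul_left_cancel₀ hw0 h1
  have key := AvM_eq hΛX m g
  refine ⟨fun hcase u hu => ?_, fun u T hu => ?_, fun θ hθ0 hθ hab => ?_⟩
  · refine ((all_fin hsy hcf hfr hε hsym hm ?_ hu).image _).subset (EE_tr hw0 (FM_diff hsy hm u) (key u))
    rcases hcase with h1 | h1
    · exact Or.inl h1
    · right
      intro z hz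
      have h2 := h1 ((s0 : ℂ) + z) (by rw [hΛX, hz, mul_zero])
      rw [Complex.add_re, Complex.ofReal_re] at h2
      linarith
  · rw [ZS_tr hw0 (key u)]
    exact (FM_fin hsy hfr hm hu T).image _
  · obtain ⟨C, hC, h1⟩ := alm hsy hcf hfr hm hoff hθ0 hθ hab
    refine ⟨C, hC, fun u T hu hT => ?_⟩
    rw [ZS_tr hw0 (key u), ES_tr hw0 (FM_diff hsy hm u) (key u), num_tr hw0 (FM_diff hsy hm u) (key u),
      num_tr hw0 (FM_diff hsy hm u) (key u)]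
    exact h1 u T hu hT

end Pool.Agent.Q246.SB
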