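import Pool.Agent.Q246.SB.Loc

set_option autoImplicit false

/-!
# The far right, and local counts
-/

namespace Pool.Agent.Q246.SB

open Complex Filter Topology Set Metric MeasureTheory
open Pool.Agent.Y671.GL
open Pool.Agent.Q246.NC (OffB)
open Pool.Agent.Q246.SA
open scoped ComplexConjugate

/-- growth on the far right -/
def FR (X : ℂ → ℂ) : Prop := ∀ M : ℝ, ∃ R1 : ℝ, ∀ z : ℂ, R1 ≤ z.re → X z ≠ 0 ∧ M ≤ (logDeriv X z).re

variable {X H Z : ℂ → ℂ} {κ : ℝ} {m : Measure ℝ} {g : ℝ → ℂ} {a A : ℝ}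

/-- **The far right.** -/
theorem far (h : Sy X) (hfr : FR X) (hm : MD m g a A) : ∃ R0 c0 : ℝ, 2 ≤ R0 ∧ 0 < c0 ∧
    ∀ u : ℂ, ‖u‖ = 1 → ∀ z : ℂ, R0 ≤ z.re → c0 * ‖X (z + A)‖ ≤ ‖FM X m g u z‖ := by
  obtain ⟨γ, hγ⟩ : ∃ γ : ℂ, γ = ((m.real {A} : ℝ) : ℂ) * g A := ⟨_, rfl⟩
  have hγ0 : γ ≠ 0 := by rw [hγ]; exact hm.atom
  have hγp : 0 < ‖γ‖ := norm_pos_iff.2 hγ0
  obtain ⟨D0, hD0, hsmall⟩ := hm.small (ε := ‖γ‖ / 8) (by positivity)
  have ha0 := hm.a0
  have hA0 := hm.A0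
  have haA := hm.aA
  obtain ⟨D, hD⟩ : ∃ D : ℝ, D = min D0 A := ⟨_, rfl⟩
  have hDp : 0 < D := by rw [hD]; positivity
  have hDD0 : D ≤ D0 := by rw [hD]; exact min_le_left _ _
  have hDA : D ≤ A := by rw [hD]; exact min_le_right _ _
  obtain ⟨N, hN⟩ : ∃ N : ℝ, N = ∫ x, ‖g x‖ ∂m := ⟨_, rfl⟩
  have hN0 : 0 ≤ N := by rw [hN]; exact integral_nonneg fun x => norm_nonneg _
  obtain ⟨M, hM⟩ : ∃ M : ℝ, M = max 0 (Real.log (8 * (N + 1) / ‖γ‖) / D) := ⟨_, rfl⟩
  have hM0 : 0 ≤ M := by rw [hM]; exact le_max_left _ _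
  have hM1 : Real.log (8 * (N + 1) / ‖γ‖) ≤ M * D := by
    have h1 : Real.log (8 * (N + 1) / ‖γ‖) / D ≤ M := by rw [hM]; exact le_max_right _ _
    rwa [div_le_iff₀ hDp] at h1
  obtain ⟨q, hq⟩ : ∃ q : ℝ, q = Real.exp (-(M * D)) := ⟨_, rfl⟩
  have hq0 : 0 < q := by rw [hq]; exact Real.exp_pos _
  have hqN : q * N ≤ ‖γ‖ / 8 := by
    have h1 : q ≤ ‖γ‖ / (8 * (N + 1)) := by
      rw [hq, Real.exp_neg, inv_le_comm₀ (Real.exp_pos _) (by positivity), inv_div]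
      rwa [← Real.log_le_iff_le_exp (by positivity)]
    calc q * N ≤ ‖γ‖ / (8 * (N + 1)) * (N + 1) := by gcongr; linarith
      _ = ‖γ‖ / 8 := by field_simp
  obtain ⟨R1, hR1⟩ := hfr M
  have hsh : ∀ (z : ℂ) (x : ℝ), z + (x : ℂ) = ((z.re + x : ℝ) : ℂ) + z.im * I := by
    intro z x
    apply Complex.ext <;> simp
  have hsh' : ∀ (z : ℂ) (x : ℝ), z - (x : ℂ) = ((z.re - x : ℝ) : ℂ) + z.im * I := by
    intro z x
    apply Complex.ext <;> simp
  have hg : ∀ s w t : ℝ, R1 ≤ s → s ≤ w → ‖X (s + t * I)‖ * Real.exp (M * (w - s)) ≤ ‖X (w + t * I)‖ := by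
    intro s w t h1 h2
    refine grow_of h.diff h2 (fun x h3 h4 => (hR1 _ ?_).1) (fun x h3 h4 => (hR1 _ ?_).2)
    · simp
      linarith
    · simp
      linarith
  have hg1 : ∀ s w t : ℝ, R1 ≤ s → s ≤ w → ‖X (s + t * I)‖ ≤ ‖X (w + t * I)‖ := by
    intro s w t h1 h2
    refine le_trans ?_ (hg s w t h1 h2)
    have h3 : 1 ≤ Real.exp (M * (w - s)) := Real.one_le_exp (mul_nonneg hM0 (by linarith))
    nlinarith [norm_nonneg (X (s + t * I))]
  have hg2 : ∀ s w t : ℝ, R1 ≤ s → s ≤ w - D → ‖X (s + t * I)‖ ≤ q * ‖X (w + t * I)‖ := by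
    intro s w t h1 h2
    have h3 := hg s w t h1 (by linarith)
    have h4 : Real.exp (M * D) ≤ Real.exp (M * (w - s)) :=
      Real.exp_le_exp.2 (mul_le_mul_of_nonneg_left (by linarith) hM0)
    rw [hq, Real.exp_neg, inv_mul_eq_div, le_div_iff₀ (Real.exp_pos _)]
    exact (mul_le_mul_of_nonneg_left h4 (norm_nonneg _)).trans h3
  refine ⟨max 2 (R1 + A), ‖γ‖ / 2, le_max_left _ _, by positivity, fun u hu z hz => ?_⟩
  have hz1 : R1 + A ≤ z.re := (le_max_right _ _).trans hz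
  have h1 := RM_le hm (z := z) (X := X) (D := D) (P := ‖X (z + A)‖) (q := q) hDp.le (norm_nonneg _) hq0.le
    (by
      intro x hx1 hx2
      rw [hsh z x, hsh z A]
      exact hg2 _ _ _ (by linarith) (by linarith))
    (by
      intro x hx1 hx2 hx3
      rw [hsh z x, hsh z A]
      exact hg1 _ _ _ (by linarith) (by linarith))
  have h2 : ‖GS X m g z‖ ≤ (q * ‖X (z + A)‖) * ∫ x, ‖g x‖ ∂m := by
    refine GS_le hm fun x hx1 hx2 => ?_
    rw [hsh', hsh z A]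
    exact hg2 _ _ _ (by linarith) (by linarith)
  rw [← hN] at h1 h2
  have h3 := hsmall D hDp hDD0
  have h4 := norm_nonneg (X (z + A))
  have h5 : ‖RM X m g A z‖ ≤ ‖X (z + A)‖ * (‖γ‖ / 4) :=
    h1.trans (mul_le_mul_of_nonneg_left (by linarith) h4)
  have h6 : ‖GS X m g z‖ ≤ ‖X (z + A)‖ * (‖γ‖ / 8) := by
    refine h2.trans ?_
    calc _ = ‖X (z + A)‖ * (q * N) := by ring
      _ ≤ _ := mul_le_mul_of_nonneg_left hqN h4
  rw [FM_eq h hm, GG_split h hm, ← hγ]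
  have h7 := norm_sub_le_norm_add (γ * X (z + A)) (RM X m g A z + u * GS X m g z)
  have h8 : ‖RM X m g A z + u * GS X m g z‖ ≤ ‖RM X m g A z‖ + ‖GS X m g z‖ := by
    refine (norm_add_le _ _).trans ?_
    rw [norm_mul, hu, one_mul]
  rw [norm_mul] at h7
  have e : γ * X (z + A) + RM X m g A z + u * GS X m g z = γ * X (z + A) + (RM X m g A z + u * GS X m g z) := by ring
  rw [e]
  nlinarith [mul_nonneg hγp.le h4]

/-- the strip of the zeros -/
theorem strip_of (h : Sy X) (hm : MD m g a A) {R0 c0 : ℝ} (hR0 : 2 ≤ R0) (hc0 : 0 < c0)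
    (hfar : ∀ u : ℂ, ‖u‖ = 1 → ∀ z : ℂ, R0 ≤ z.re → c0 * ‖X (z + A)‖ ≤ ‖FM X m g u z‖) {u : ℂ} (hu : ‖u‖ = 1)
    {z : ℂ} (h0 : FM X m g u z = 0) : |z.re| < R0 := by
  have hA0 := hm.A0
  have key : ∀ z : ℂ, FM X m g u z = 0 → z.re < R0 := by
    intro z h0
    by_contra hc
    push Not at hc
    have h1 := hfar u hu z hc
    rw [h0, norm_zero] at h1
    have h2 : X (z + A) ≠ 0 := by
      intro h3
      have h4 := h.strip _ h3
      rw [Complex.add_re, Complex.ofReal_re] at h4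
      have := (abs_le.1 h4).2
      linarith
    have h3 := norm_pos_iff.2 h2
    nlinarith [mul_pos hc0 h3]
  rw [abs_lt]
  refine ⟨?_, key z h0⟩
  have h1 := key (-(conj z)) (by rw [FM_symm h hm hu, h0, map_zero, mul_zero])
  rw [Complex.neg_re, Complex.conj_re] at h1
  linarith

/-- **Local counts.** -/
theorem cnt (h : Sy X) (hcf : CF κ H X Z) (hm : MD m g a A) {R0 c0 : ℝ} (hR0 : 2 ≤ R0) (hc0 : 0 < c0)
    (hfar : ∀ u : ℂ, ‖u‖ = 1 → ∀ z : ℂ, R0 ≤ z.re → c0 * ‖X (z + A)‖ ≤ ‖FM X m g u z‖) :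
    ∃ K : ℝ, 0 < K ∧ ∀ (u : ℂ) (t : ℝ), ‖u‖ = 1 → 0 ≤ t →
    ∀ S : Finset ℂ, (∀ z ∈ S, |z.re| ≤ R0 ∧ |z.im - t| ≤ 4) →
    ∑ z ∈ S, (analyticOrderNatAt (FM X m g u) z : ℝ) ≤ K * Real.log (3 + t) := by
  have hA0 := hm.A0
  obtain ⟨r, hr⟩ : ∃ r : ℝ, r = 2 * R0 + 4 := ⟨_, rfl⟩
  obtain ⟨K, hK, hbox⟩ := box h hcf (R0 + 2 * r + A) (by rw [hr]; linarith)
  have hl2 : 0 < Real.log 2 := Real.log_pos (by norm_num)
  obtain ⟨N, hN⟩ : ∃ N : ℝ, N = ∫ x, ‖g x‖ ∂m := ⟨_, rfl⟩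
  have hN0 : 0 ≤ N := by rw [hN]; exact integral_nonneg fun x => norm_nonneg _
  obtain ⟨E, hE⟩ : ∃ E : ℝ, E = |Real.log (2 * (N + 1) / c0)| / Real.log 2 := ⟨_, rfl⟩
  have hE0 : 0 ≤ E := by rw [hE]; positivity
  refine ⟨(K + E + 1) / Real.log 2, by positivity, fun u t hu ht S hS => ?_⟩
  have hd := FM_diff h hm u
  obtain ⟨p, hp⟩ : ∃ p : ℂ, p = ((R0 : ℝ) : ℂ) + t * I := ⟨_, rfl⟩
  have hpre : p.re = R0 := by rw [hp]; simp
  have hpim : p.im = t := by rw [hp]; simp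
  have hpA : p + (A : ℂ) = ((R0 + A : ℝ) : ℂ) + t * I := by rw [hp]; push_cast; ring
  have hXp : 0 < ‖X (p + A)‖ := by
    rw [hpA]
    exact norm_pos_iff.2 (h.pos_right (by linarith)).1
  have hl := hfar u hu p (by rw [hpre])
  have hne : FM X m g u p ≠ 0 := by
    rw [← norm_pos_iff]
    exact lt_of_lt_of_le (by positivity) hl
  have hlog : Real.log 2 ≤ Real.log (3 + t) := Real.log_le_log (by norm_num) (by linarith)
  have hcmp : ‖X (((2 : ℝ) : ℂ) + t * I)‖ ≤ ‖X (p + A)‖ := by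
    rw [hpA]
    refine h.le (by nlinarith) fun ρ hρ => ?_
    have h1 := h.strip ρ hρ
    have h2 : ρ.re ^ 2 ≤ (1 / 2) ^ 2 := by
      rw [← sq_abs]
      exact pow_le_pow_left₀ (abs_nonneg _) h1 2
    nlinarith [sq_nonneg (t - ρ.im), sq_nonneg (R0 + A)]
  have hjc := Pool.Agent.W186.LH.jc hd (c := p) (r := r) (R := 2 * r)
    (M := 2 * (Real.exp (K * Real.log (3 + t)) * ‖X (p + A)‖) * N) (by rw [hr]; linarith) (by rw [hr]; linarith)
    (by
      intro w hw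
      rw [mem_sphere_iff_norm] at hw
      have h1 := Complex.abs_re_le_norm (w - p)
      have h2 := Complex.abs_im_le_norm (w - p)
      rw [hw, Complex.sub_re, hpre] at h1
      rw [hw, Complex.sub_im, hpim] at h2
      obtain ⟨h3, h4⟩ := abs_le.1 h1
      have hb : ∀ x : ℝ, -A ≤ x → x ≤ A → ‖X (w + x)‖ ≤ Real.exp (K * Real.log (3 + t)) * ‖X (p + A)‖ := by
        intro x hx1 hx2
        have g1 := hbox t (w + x) 2 (by linarith) (by
          rw [Complex.add_re, Complex.ofReal_re, abs_le]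
          constructor <;> linarith) (by
          rw [Complex.add_im, Complex.ofReal_im, add_zero]
          linarith) (by linarith) (by linarith)
        exact g1.trans (mul_le_mul_of_nonneg_left hcmp (Real.exp_pos _).le)
      rw [FM_eq h hm]
      refine (norm_add_le _ _).trans ?_
      rw [norm_mul, hu, one_mul]
      have g1 := GG_le (X := X) hm (z := w) (Q := Real.exp (K * Real.log (3 + t)) * ‖X (p + A)‖)
        (fun x hx1 hx2 => hb x (by linarith [hm.a0]) hx2)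
      have g2 := GS_le (X := X) hm (z := w) (Q := Real.exp (K * Real.log (3 + t)) * ‖X (p + A)‖)
        (fun x hx1 hx2 => by
          have := hb (-x) (by linarith) (by linarith [hm.a0])
          have e : w + ((-x : ℝ) : ℂ) = w - x := by push_cast; ring
          rwa [e] at this)
      rw [← hN] at g1 g2
      linarith) hne S (by
      intro z hz
      obtain ⟨h1, h2⟩ := hS z hz
      rw [mem_closedBall, dist_eq_norm]
      refine (Complex.norm_le_abs_re_add_abs_im _).trans ?_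
      rw [Complex.sub_re, Complex.sub_im, hpre, hpim]
      obtain ⟨h3, h4⟩ := abs_le.1 h1
      have h5 : |z.re - R0| ≤ 2 * R0 := by
        rw [abs_le]
        constructor <;> linarith
      rw [hr]
      linarith)
  have hr0 : r ≠ 0 := by rw [hr]; positivity
  have e : (2 * r / r : ℝ) = 2 := by field_simp
  rw [e] at hjc
  obtain ⟨n, hn⟩ : ∃ n : ℕ, n = ∑ z ∈ S, analyticOrderNatAt (FM X m g u) z := ⟨_, rfl⟩
  rw [← hn] at hjc
  have hnr : ∑ z ∈ S, (analyticOrderNatAt (FM X m g u) z : ℝ) = n := by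
    rw [hn]
    push_cast
    rfl
  rw [hnr]
  have h1 : (2 : ℝ) ^ n * c0 ≤ 2 * (N + 1) * Real.exp (K * Real.log (3 + t)) := by
    refine le_of_mul_le_mul_right ?_ hXp
    calc (2 : ℝ) ^ n * c0 * ‖X (p + A)‖
        = (2 : ℝ) ^ n * (c0 * ‖X (p + A)‖) := by ring
      _ ≤ (2 : ℝ) ^ n * ‖FM X m g u p‖ := by gcongr
      _ ≤ _ := hjc
      _ = 2 * N * Real.exp (K * Real.log (3 + t)) * ‖X (p + A)‖ := by ring
      _ ≤ _ := by
        gcongr
        linarith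
  have h2 : (n : ℝ) * Real.log 2 + Real.log c0 ≤ Real.log (2 * (N + 1)) + K * Real.log (3 + t) := by
    have h3 := Real.log_le_log (by positivity) h1
    rw [Real.log_mul (by positivity) hc0.ne', Real.log_pow,
      Real.log_mul (by positivity) (Real.exp_pos _).ne', Real.log_exp] at h3
    exact h3
  have h3 : Real.log (2 * (N + 1)) - Real.log c0 ≤ E * Real.log (3 + t) := by
    rw [← Real.log_div (by positivity) hc0.ne']
    calc Real.log (2 * (N + 1) / c0) ≤ E * Real.log 2 := by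
          rw [hE, div_mul_cancel₀ _ hl2.ne']
          exact le_abs_self _
      _ ≤ _ := mul_le_mul_of_nonneg_left hlog hE0
  rw [div_mul_eq_mul_div, le_div_iff₀ hl2]
  have h6 : 0 ≤ Real.log (3 + t) := hl2.le.trans hlog
  linarith

end Pool.Agent.Q246.SB
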