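import Pool.Agent.Q246.SA.Fin

set_option autoImplicit false

/-!
# Growth to the right at good heights
-/

namespace Pool.Agent.Q246.SB

open Complex Filter Topology Set Metric MeasureTheory
open Pool.Agent.Y671.GL
open Pool.Agent.Q246.NC (OffB)
open Pool.Agent.Q246.SA
open scoped ComplexConjugate

/-- Harnack inequality -/
lemma hk {P : ℂ → ℂ} {c w : ℂ} (hP : DifferentiableOn ℂ P (ball c 1)) (hre : ∀ z ∈ ball c 1, 0 < (P z).re)
    (hw : w ∈ ball c 1) : (1 - ‖w - c‖) / 2 * (P c).re ≤ (P w).re := by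
  have hcre : 0 < (P c).re := hre c (mem_ball_self one_pos)
  have hwre : 0 < (P w).re := hre w hw
  have hne : ∀ z ∈ ball c 1, P z + conj (P c) ≠ 0 := by
    intro z hz h
    have := congrArg Complex.re h
    simp only [add_re, conj_re, zero_re] at this
    linarith [hre z hz]
  have hmaps : MapsTo (fun z => (P z - P c) / (P z + conj (P c))) (ball c 1) (closedBall 0 1) := by
    intro z hz
    rw [mem_closedBall_zero_iff, norm_div, div_le_one (norm_pos_iff.mpr (hne z hz))]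
    have h1 : ‖P z - P c‖ ^ 2 ≤ ‖P z + conj (P c)‖ ^ 2 := by
      rw [← normSq_eq_norm_sq, ← normSq_eq_norm_sq]
      simp only [normSq_apply, sub_re, sub_im, add_re, add_im, conj_re, conj_im]
      nlinarith [mul_pos (hre z hz) hcre]
    exact le_of_pow_le_pow_left₀ (two_ne_zero) (norm_nonneg _) h1
  have hdiff : DifferentiableOn ℂ (fun z => (P z - P c) / (P z + conj (P c))) (ball c 1) :=
    (hP.sub_const _).div (hP.add_const _) hne
  have h1 := dist_le_div_mul_dist_of_mapsTo_ball hdiff (R₂ := 1) (by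
    have : (P c - P c) / (P c + conj (P c)) = 0 := by simp
    rw [this]; exact hmaps) hw
  rw [sub_self, zero_div, dist_zero_right, norm_div,
    div_le_iff₀ (norm_pos_iff.mpr (hne w hw)), dist_eq_norm, div_one, one_mul] at h1
  obtain ⟨r, hr⟩ : ∃ r : ℝ, r = ‖w - c‖ := ⟨_, rfl⟩
  have hr0 : 0 ≤ r := by rw [hr]; exact norm_nonneg _
  have hr1 : r < 1 := by rw [hr]; exact mem_ball_iff_norm.1 hw
  rw [← hr] at h1 ⊢
  have h2 : ‖P w - P c‖ ^ 2 ≤ r ^ 2 * ‖P w + conj (P c)‖ ^ 2 := by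
    rw [← mul_pow]
    exact pow_le_pow_left₀ (norm_nonneg _) h1 2
  rw [← normSq_eq_norm_sq, ← normSq_eq_norm_sq] at h2
  simp only [normSq_apply, sub_re, sub_im, add_re, add_im, conj_re, conj_im] at h2
  have hr2 : r ^ 2 ≤ 1 := by nlinarith
  have h3 : ((P w).re - (P c).re) ^ 2 ≤ (r * ((P w).re + (P c).re)) ^ 2 := by
    nlinarith [mul_nonneg (sub_nonneg.2 hr2) (mul_self_nonneg ((P w).im + -(P c).im))]
  have h4 := abs_le_of_sq_le_sq' h3 (by positivity)
  nlinarith [h4.1, mul_nonneg hr0 hwre.le]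

variable {X : ℂ → ℂ}

/-- near the height `y` all zeros are at distance at most `b` from the line -/
def Gd (X : ℂ → ℂ) (b y : ℝ) : Prop := ∀ ρ : ℂ, X ρ = 0 → |ρ.im - y| ≤ 3 → |ρ.re| ≤ b

lemma gd_le (h : Sy X) {b y t S : ℝ} (hg : Gd X b y) (ht : |t - y| ≤ 2) (hS : 2 * b ^ 2 ≤ S) :
    ∀ ρ : ℂ, X ρ = 0 → 2 * ρ.re ^ 2 ≤ S + 2 * (t - ρ.im) ^ 2 := by
  intro ρ hρ
  rcases le_or_gt |t - ρ.im| 1 with h1 | h1
  · have h2 : |ρ.im - y| ≤ 3 := by
      have e : ρ.im - y = (t - y) - (t - ρ.im) := by ring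
      rw [e]
      exact (abs_sub _ _).trans (by linarith)
    have h3 := hg ρ hρ h2
    have h4 : ρ.re ^ 2 ≤ b ^ 2 := by
      rw [← sq_abs]
      exact pow_le_pow_left₀ (abs_nonneg _) h3 2
    nlinarith [sq_nonneg (t - ρ.im)]
  · have h3 := h.strip ρ hρ
    have h4 : ρ.re ^ 2 ≤ (1 / 2) ^ 2 := by
      rw [← sq_abs]
      exact pow_le_pow_left₀ (abs_nonneg _) h3 2
    have h5 : 1 ≤ (t - ρ.im) ^ 2 := by
      rw [← sq_abs]
      nlinarith
    nlinarith [sq_nonneg b]

lemma gd_pos (h : Sy X) {b y t u : ℝ} (hb0 : 0 ≤ b) (hg : Gd X b y) (ht : |t - y| ≤ 2) (hu : b < u) :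
    X (u + t * I) ≠ 0 ∧ 0 < (logDeriv X (u + t * I)).re := by
  refine h.re_pos (by linarith) fun ρ hρ => ?_
  have h1 := gd_le h hg ht (S := 2 * b ^ 2) le_rfl ρ hρ
  have h2 : b ^ 2 < u ^ 2 := pow_lt_pow_left₀ hu hb0 two_ne_zero
  nlinarith

variable {κ : ℝ} {H Z : ℂ → ℂ}

/-- **Growth.** -/
theorem growth (h : Sy X) (hcf : CF κ H X Z) {b D R : ℝ} (hb0 : 0 ≤ b) (hb : b ≤ 1 / 2) (hD : 0 < D)
    (hR : 2 ≤ R) : ∃ c Y0 : ℝ, 0 < c ∧ 2 ≤ Y0 ∧ ∀ y t u : ℝ, Y0 ≤ y → Gd X b y → |t - y| ≤ 1 →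
      b + D ≤ u → u ≤ R → X (u + t * I) ≠ 0 ∧ c * Real.log y ≤ (logDeriv X (u + t * I)).re := by
  have hκ := hcf.κ_pos
  obtain ⟨T0, hT0, hlo⟩ := Pool.Agent.Y423.GL.loX hcf R (by linarith) (1 / 2) (by norm_num)
  -- the far right
  have hfar : ∀ y t u : ℝ, T0 + 3 ≤ y → |t - y| ≤ 1 → 1 ≤ u → u ≤ R →
      κ / 4 * Real.log y ≤ (logDeriv X (u + t * I)).re := by
    intro y t u hy ht h1 h2
    have ht' := abs_le.1 ht
    obtain ⟨-, -, h3, -⟩ := hlo t (u : ℂ) (by linarith) (by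
      rw [Complex.norm_real, Real.norm_of_nonneg (by linarith)]
      exact h2) (by rw [Complex.ofReal_re]; exact h1)
    have e : (I * t + u : ℂ) = u + t * I := by ring
    rw [e] at h3
    have h4 := (abs_le.1 ((Complex.abs_re_le_norm _).trans h3)).1
    rw [Complex.sub_re, Complex.ofReal_re] at h4
    have h5 : Real.log y ≤ 2 * Real.log t := by
      have h6 : Real.log y ≤ Real.log (t ^ 2) := Real.log_le_log (by linarith) (by nlinarith)
      rw [Real.log_pow] at h6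
      exact_mod_cast h6
    have h6 : κ * Real.log y ≤ κ * (2 * Real.log t) := mul_le_mul_of_nonneg_left h5 hκ.le
    linarith
  obtain ⟨D', hD'⟩ : ∃ D' : ℝ, D' = min D 1 := ⟨_, rfl⟩
  have hD'0 : 0 < D' := by rw [hD']; positivity
  have hD'1 : D' ≤ 1 := by rw [hD']; exact min_le_right _ _
  have hD'D : D' ≤ D := by rw [hD']; exact min_le_left _ _
  refine ⟨D' / 2 * (κ / 4), T0 + 3, by positivity, by linarith, fun y t u hy hg ht h1 h2 => ?_⟩
  have hy0 : 0 < y := by linarith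
  have hly : 0 ≤ Real.log y := Real.log_nonneg (by linarith)
  obtain ⟨h3, -⟩ := gd_pos h hb0 hg (ht.trans (by norm_num)) (show b < u by linarith)
  refine ⟨h3, ?_⟩
  rcases le_or_gt (1 + b) u with h4 | h4
  · have h5 := hfar y t u hy ht (by linarith) h2
    have h6 : D' / 2 * (κ / 4) * Real.log y ≤ 1 * (κ / 4) * Real.log y := by
      gcongr
      linarith
    linarith
  · obtain ⟨c, hc⟩ : ∃ c : ℂ, c = ((1 + b : ℝ) : ℂ) + t * I := ⟨_, rfl⟩
    have hcre : c.re = 1 + b := by rw [hc]; simp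
    have hcim : c.im = t := by rw [hc]; simp
    have hball : ∀ z ∈ ball c 1, X z ≠ 0 ∧ 0 < (logDeriv X z).re := by
      intro z hz
      rw [mem_ball_iff_norm] at hz
      have g1 := (Complex.abs_re_le_norm _).trans_lt hz
      have g2 := (Complex.abs_im_le_norm _).trans_lt hz
      rw [Complex.sub_re, hcre] at g1
      rw [Complex.sub_im, hcim] at g2
      have g3 := (abs_lt.1 g1).1
      have g4 : |z.im - y| ≤ 2 := by
        have e : z.im - y = (z.im - t) + (t - y) := by ring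
        rw [e]
        exact (abs_add_le _ _).trans (by linarith)
      have := gd_pos h hb0 hg g4 (show b < z.re by linarith)
      rwa [Complex.re_add_im] at this
    have hdf : DifferentiableOn ℂ (logDeriv X) (ball c 1) := by
      intro z hz
      exact (((h.diff.analyticAt z).deriv.div (h.diff.analyticAt z) (hball z hz).1).differentiableAt).differentiableWithinAt
    have hwc : (u + t * I : ℂ) - c = ((u - (1 + b) : ℝ) : ℂ) := by rw [hc]; push_cast; ring
    have hwn : ‖(u + t * I : ℂ) - c‖ = 1 + b - u := by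
      rw [hwc, Complex.norm_real, Real.norm_eq_abs, abs_of_neg (by linarith)]
      ring
    have h5 := hk hdf (fun z hz => (hball z hz).2) (w := (u + t * I : ℂ)) (by
      rw [mem_ball_iff_norm, hwn]
      linarith)
    rw [hwn] at h5
    have h6 := hfar y t (1 + b) hy ht (by linarith) (by linarith)
    rw [← hc] at h6
    have h7 : D' / 2 ≤ (1 - (1 + b - u)) / 2 := by linarith
    have h8 : 0 ≤ κ / 4 * Real.log y := by positivity
    calc D' / 2 * (κ / 4) * Real.log y = D' / 2 * (κ / 4 * Real.log y) := by ring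
      _ ≤ (1 - (1 + b - u)) / 2 * (logDeriv X c).re := by
          refine mul_le_mul h7 h6 h8 (by linarith)
      _ ≤ _ := h5

/-- **Domination.** -/
theorem dom (h : Sy X) {b y t m r R w v η : ℝ} (hg : Gd X b y) (ht : |t - y| ≤ 1)
    (hgr : ∀ u, r ≤ u → u ≤ R → X (u + t * I) ≠ 0 ∧ m ≤ (logDeriv X (u + t * I)).re)
    (hη : 0 ≤ η) (hw : r ≤ w - η) (hwR : w ≤ R) (hv : |v| ≤ w - η) (hS : 2 * b ^ 2 ≤ v ^ 2 + (w - η) ^ 2) :
    ‖X (v + t * I)‖ * Real.exp (m * η) ≤ ‖X (w + t * I)‖ := by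
  have h1 : ‖X (v + t * I)‖ ≤ ‖X (((w - η : ℝ) : ℂ) + t * I)‖ := by
    refine h.le ?_ ?_
    · rw [← sq_abs v]
      exact pow_le_pow_left₀ (abs_nonneg _) hv 2
    · exact gd_le h hg (ht.trans (by norm_num)) (by linarith)
  have h2 := grow_of h.diff (t := t) (a := w - η) (b := w) (m := m) (by linarith)
    (fun u h1 h2 => (hgr u (by linarith) (by linarith)).1)
    (fun u h1 h2 => (hgr u (by linarith) (by linarith)).2)
  have e : w - (w - η) = η := by ring
  rw [e] at h2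
  exact (mul_le_mul_of_nonneg_right h1 (Real.exp_pos _).le).trans h2

end Pool.Agent.Q246.SB
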