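import Pool.Agent.Q246.SB.Gro

set_option autoImplicit false

/-!
# Averages of horizontal shifts over a measure
-/

namespace Pool.Agent.Q246.SB

open Complex Filter Topology Set Metric MeasureTheory
open Pool.Agent.Q246.SA
open scoped ComplexConjugate

section gen
variable {X : ℂ → ℂ} {m : Measure ℝ} {g : ℝ → ℂ}

lemma int_mul (hX : Continuous X) (hg : Integrable g m) {φ : ℝ → ℂ} (hφ : Continuous φ)
    {A : ℝ} (hA : ∀ᵐ x ∂m, ‖φ x‖ ≤ A) (z : ℂ) : Integrable (fun x => g x * X (z + φ x)) m := by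
  obtain ⟨M, hM⟩ := (isCompact_closedBall z A).exists_bound_of_continuousOn hX.continuousOn
  refine (hg.norm.const_mul M).mono' (hg.aestronglyMeasurable.mul
    (hX.comp (continuous_const.add hφ)).aestronglyMeasurable) ?_
  filter_upwards [hA] with x hx
  rw [norm_mul, mul_comm]
  refine mul_le_mul_of_nonneg_right (hM _ ?_) (norm_nonneg _)
  rw [mem_closedBall_iff_norm, add_sub_cancel_left]
  exact hx

lemma deriv_int (hX : Differentiable ℂ X) (hg : Integrable g m) {φ : ℝ → ℂ} (hφ : Continuous φ)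
    {A : ℝ} (hA : ∀ᵐ x ∂m, ‖φ x‖ ≤ A) (z : ℂ) :
    HasDerivAt (fun z => ∫ x, g x * X (z + φ x) ∂m) (∫ x, g x * deriv X (z + φ x) ∂m) z := by
  have hX' : Differentiable ℂ (deriv X) := fun z => (hX.analyticAt z).deriv.differentiableAt
  obtain ⟨M, hM⟩ := (isCompact_closedBall z (A + 1)).exists_bound_of_continuousOn hX'.continuous.continuousOn
  refine (hasDerivAt_integral_of_dominated_loc_of_deriv_le (F := fun z x => g x * X (z + φ x))
    (F' := fun z x => g x * deriv X (z + φ x)) (bound := fun x => M * ‖g x‖) (s := ball z 1)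
    (ball_mem_nhds z one_pos) (Eventually.of_forall fun w => ?_) (int_mul hX.continuous hg hφ hA z) ?_ ?_
    (hg.norm.const_mul M) ?_).2
  · exact hg.aestronglyMeasurable.mul (hX.continuous.comp (continuous_const.add hφ)).aestronglyMeasurable
  · exact hg.aestronglyMeasurable.mul (hX'.continuous.comp (continuous_const.add hφ)).aestronglyMeasurable
  · filter_upwards [hA] with x hx w hw
    rw [norm_mul, mul_comm]
    refine mul_le_mul_of_nonneg_right (hM _ ?_) (norm_nonneg _)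
    rw [mem_closedBall_iff_norm]
    rw [mem_ball_iff_norm] at hw
    have e : w + φ x - z = φ x + (w - z) := by ring
    rw [e]
    exact (norm_add_le _ _).trans (by linarith)
  · refine Eventually.of_forall fun x w _ => ?_
    exact (((hX _).hasDerivAt).comp_add_const w (φ x)).const_mul (g x)

end gen

/-- `∫ g(x) X(z + x) dm(x)` -/
noncomputable def GG (X : ℂ → ℂ) (m : Measure ℝ) (g : ℝ → ℂ) (z : ℂ) : ℂ := ∫ x, g x * X (z + x) ∂m

/-- `∫ conj g(x) X(z - x) dm(x)` -/
noncomputable def GS (X : ℂ → ℂ) (m : Measure ℝ) (g : ℝ → ℂ) (z : ℂ) : ℂ := ∫ x, conj (g x) * X (z - x) ∂m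

/-- the average -/
noncomputable def FM (X : ℂ → ℂ) (m : Measure ℝ) (g : ℝ → ℂ) (u z : ℂ) : ℂ :=
  ∫ x, (g x * X (z + x) + u * (conj (g x) * X (z - x))) ∂m

/-- the data -/
structure MD (m : Measure ℝ) (g : ℝ → ℂ) (a A : ℝ) : Prop where
  a0 : 0 ≤ a
  A0 : 0 < A
  supp : ∀ᵐ x ∂m, a ≤ x ∧ x ≤ A
  int : Integrable g m
  atom : ((m.real {A} : ℝ) : ℂ) * g A ≠ 0

variable {X : ℂ → ℂ} {m : Measure ℝ} {g : ℝ → ℂ} {a A : ℝ}

theorem MD.aA (h : MD m g a A) : a ≤ A := by
  by_contra hc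
  push Not at hc
  apply h.atom
  have h1 : m {A} = 0 := by
    have h2 := h.supp
    rw [ae_iff] at h2
    refine measure_mono_null ?_ h2
    intro x hx
    rw [Set.mem_singleton_iff] at hx
    rw [Set.mem_setOf_eq, hx]
    intro h3
    linarith [h3.1]
  rw [Measure.real, h1]
  simp

theorem MD.abs (h : MD m g a A) : ∀ᵐ x ∂m, ‖((x : ℝ) : ℂ)‖ ≤ A := by
  filter_upwards [h.supp] with x hx
  rw [Complex.norm_real, Real.norm_eq_abs, abs_of_nonneg (h.a0.trans hx.1)]
  exact hx.2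

theorem MD.abs' (h : MD m g a A) : ∀ᵐ x ∂m, ‖-((x : ℝ) : ℂ)‖ ≤ A := by
  filter_upwards [h.abs] with x hx
  rwa [norm_neg]

theorem MD.intc (h : MD m g a A) : Integrable (fun x => conj (g x)) m := by
  have := h.int
  refine (this.norm).mono' (Complex.continuous_conj.comp_aestronglyMeasurable this.aestronglyMeasurable) ?_
  refine Eventually.of_forall fun x => ?_
  show ‖conj (g x)‖ ≤ ‖g x‖
  rw [Complex.norm_conj]

theorem GG_deriv (h : Sy X) (hm : MD m g a A) (z : ℂ) :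
    HasDerivAt (GG X m g) (∫ x, g x * deriv X (z + x) ∂m) z :=
  deriv_int h.diff hm.int Complex.continuous_ofReal hm.abs z

theorem GS_deriv (h : Sy X) (hm : MD m g a A) (z : ℂ) :
    HasDerivAt (GS X m g) (∫ x, conj (g x) * deriv X (z + -(x : ℂ)) ∂m) z := by
  have := deriv_int h.diff hm.intc (Complex.continuous_ofReal.neg) hm.abs' z
  exact this

theorem GG_diff (h : Sy X) (hm : MD m g a A) : Differentiable ℂ (GG X m g) :=
  fun z => (GG_deriv h hm z).differentiableAt

theorem GS_diff (h : Sy X) (hm : MD m g a A) : Differentiable ℂ (GS X m g) :=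
  fun z => (GS_deriv h hm z).differentiableAt

theorem GG_int (h : Sy X) (hm : MD m g a A) (z : ℂ) : Integrable (fun x : ℝ => g x * X (z + x)) m :=
  int_mul h.diff.continuous hm.int Complex.continuous_ofReal hm.abs z

theorem GS_int (h : Sy X) (hm : MD m g a A) (z : ℂ) : Integrable (fun x : ℝ => conj (g x) * X (z - x)) m :=
  int_mul h.diff.continuous hm.intc (Complex.continuous_ofReal.neg) hm.abs' z

theorem FM_eq (h : Sy X) (hm : MD m g a A) (u z : ℂ) : FM X m g u z = GG X m g z + u * GS X m g z := by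
  unfold FM GG GS
  rw [integral_add (GG_int h hm z) ((GS_int h hm z).const_mul u), integral_const_mul]

theorem FM_diff (h : Sy X) (hm : MD m g a A) (u : ℂ) : Differentiable ℂ (FM X m g u) := by
  have e : FM X m g u = fun z => GG X m g z + u * GS X m g z := funext fun z => FM_eq h hm u z
  rw [e]
  exact (GG_diff h hm).add ((GS_diff h hm).const_mul u)

theorem GS_eq (h : Sy X) (m : Measure ℝ) (g : ℝ → ℂ) (z : ℂ) : GS X m g z = conj (GG X m g (-(conj z))) := by
  unfold GG GS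
  rw [← integral_conj]
  refine integral_congr_ae (Eventually.of_forall fun x => ?_)
  show conj (g x) * X (z - x) = conj (g x * X (-(conj z) + x))
  rw [map_mul, ← h.symm]
  congr 2
  rw [map_add, map_neg, Complex.conj_conj, Complex.conj_ofReal]
  ring

theorem FM_symm (h : Sy X) (hm : MD m g a A) {u : ℂ} (hu : ‖u‖ = 1) (z : ℂ) :
    FM X m g u (-(conj z)) = u * conj (FM X m g u z) := by
  rw [FM_eq h hm, FM_eq h hm, GS_eq h m g z, GS_eq h m g (-(conj z)), map_add, map_mul, Complex.conj_conj,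
    map_neg, Complex.conj_conj, neg_neg]
  have h1 : u * conj u = 1 := by
    rw [Complex.mul_conj, Complex.normSq_eq_norm_sq, hu]
    norm_num
  linear_combination (-(GG X m g (-(conj z)))) * h1

theorem FM_norm_symm (h : Sy X) (hm : MD m g a A) {u : ℂ} (hu : ‖u‖ = 1) (z : ℂ) :
    ‖FM X m g u (-(conj z))‖ = ‖FM X m g u z‖ := by
  rw [FM_symm h hm hu, norm_mul, hu, one_mul, Complex.norm_conj]

/-- the part without the atom -/
noncomputable def RM (X : ℂ → ℂ) (m : Measure ℝ) (g : ℝ → ℂ) (A : ℝ) (z : ℂ) : ℂ :=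
  ∫ x in ({A}ᶜ : Set ℝ), g x * X (z + x) ∂m

theorem GG_split (h : Sy X) (hm : MD m g a A) (z : ℂ) :
    GG X m g z = ((m.real {A} : ℝ) : ℂ) * g A * X (z + A) + RM X m g A z := by
  unfold GG RM
  rw [← integral_add_compl (measurableSet_singleton A) (GG_int h hm z)]
  congr 1
  rw [integral_singleton, Complex.real_smul]
  ring

theorem RM_le (hm : MD m g a A) {z : ℂ} {D P q : ℝ} (hD : 0 ≤ D) (hP : 0 ≤ P) (hq : 0 ≤ q)
    (h1 : ∀ x, a ≤ x → x ≤ A - D → ‖X (z + x)‖ ≤ q * P)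
    (h2 : ∀ x, a ≤ x → A - D < x → x < A → ‖X (z + x)‖ ≤ P) :
    ‖RM X m g A z‖ ≤ P * (q * (∫ x, ‖g x‖ ∂m) + ∫ x in Ioo (A - D) A, ‖g x‖ ∂m) := by
  have hb : Integrable (fun x => q * P * ‖g x‖ + P * (Ioo (A - D) A).indicator (fun x => ‖g x‖) x) m :=
    (hm.int.norm.const_mul _).add ((hm.int.norm.indicator measurableSet_Ioo).const_mul _)
  unfold RM
  have h3 : ‖∫ x in ({A}ᶜ : Set ℝ), g x * X (z + x) ∂m‖ ≤
      ∫ x in ({A}ᶜ : Set ℝ), (q * P * ‖g x‖ + P * (Ioo (A - D) A).indicator (fun x => ‖g x‖) x) ∂m := by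
    refine norm_integral_le_of_norm_le hb.integrableOn ?_
    filter_upwards [ae_restrict_of_ae hm.supp, ae_restrict_mem (measurableSet_singleton A).compl] with x hx hxA
    have hne : x ≠ A := hxA
    have hg0 := norm_nonneg (g x)
    rw [norm_mul]
    rcases le_or_gt x (A - D) with h4 | h4
    · have h5 := h1 x hx.1 h4
      have h6 : (0 : ℝ) ≤ P * (Ioo (A - D) A).indicator (fun x => ‖g x‖) x :=
        mul_nonneg hP (Set.indicator_nonneg (fun _ _ => norm_nonneg _) _)
      nlinarith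
    · have h5 := h2 x hx.1 h4 (lt_of_le_of_ne hx.2 hne)
      rw [Set.indicator_of_mem (show x ∈ Ioo (A - D) A from ⟨h4, lt_of_le_of_ne hx.2 hne⟩)]
      have h6 : 0 ≤ q * P * ‖g x‖ := by positivity
      nlinarith
  refine h3.trans ?_
  have h4 : ∫ x in ({A}ᶜ : Set ℝ), (q * P * ‖g x‖ + P * (Ioo (A - D) A).indicator (fun x => ‖g x‖) x) ∂m ≤
      ∫ x, (q * P * ‖g x‖ + P * (Ioo (A - D) A).indicator (fun x => ‖g x‖) x) ∂m := by
    refine setIntegral_le_integral hb (Eventually.of_forall fun x => ?_)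
    show 0 ≤ q * P * ‖g x‖ + P * (Ioo (A - D) A).indicator (fun x => ‖g x‖) x
    have h6 : (0 : ℝ) ≤ P * (Ioo (A - D) A).indicator (fun x => ‖g x‖) x :=
      mul_nonneg hP (Set.indicator_nonneg (fun _ _ => norm_nonneg _) _)
    positivity
  refine h4.trans (le_of_eq ?_)
  rw [integral_add (hm.int.norm.const_mul _) ((hm.int.norm.indicator measurableSet_Ioo).const_mul _),
    integral_const_mul, integral_const_mul, integral_indicator measurableSet_Ioo]
  ring

theorem GS_le (hm : MD m g a A) {z : ℂ} {Q : ℝ} (h1 : ∀ x, a ≤ x → x ≤ A → ‖X (z - x)‖ ≤ Q) :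
    ‖GS X m g z‖ ≤ Q * ∫ x, ‖g x‖ ∂m := by
  unfold GS
  rw [← integral_const_mul]
  refine norm_integral_le_of_norm_le (hm.int.norm.const_mul _) ?_
  filter_upwards [hm.supp] with x hx
  rw [norm_mul, Complex.norm_conj, mul_comm]
  exact mul_le_mul_of_nonneg_right (h1 x hx.1 hx.2) (norm_nonneg _)

theorem GG_le (hm : MD m g a A) {z : ℂ} {Q : ℝ} (h1 : ∀ x, a ≤ x → x ≤ A → ‖X (z + x)‖ ≤ Q) :
    ‖GG X m g z‖ ≤ Q * ∫ x, ‖g x‖ ∂m := by
  unfold GG
  rw [← integral_const_mul]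
  refine norm_integral_le_of_norm_le (hm.int.norm.const_mul _) ?_
  filter_upwards [hm.supp] with x hx
  rw [norm_mul, mul_comm]
  exact mul_le_mul_of_nonneg_right (h1 x hx.1 hx.2) (norm_nonneg _)

/-- a small interval on the left of `A` -/
theorem MD.small (hm : MD m g a A) {ε : ℝ} (hε : 0 < ε) :
    ∃ D0 : ℝ, 0 < D0 ∧ ∀ D : ℝ, 0 < D → D ≤ D0 → ∫ x in Ioo (A - D) A, ‖g x‖ ∂m ≤ ε := by
  have h1 : Tendsto (fun n : ℕ => ∫ x in Ioo (A - 1 / ((n : ℝ) + 1)) A, ‖g x‖ ∂m) atTop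
      (𝓝 (∫ x in ⋂ n : ℕ, Ioo (A - 1 / ((n : ℝ) + 1)) A, ‖g x‖ ∂m)) := by
    refine tendsto_setIntegral_of_antitone (fun _ => measurableSet_Ioo) ?_ ⟨0, hm.int.norm.integrableOn⟩
    intro n k hnk
    refine Ioo_subset_Ioo_left ?_
    have : 1 / ((k : ℝ) + 1) ≤ 1 / ((n : ℝ) + 1) := by
      apply one_div_le_one_div_of_le (by positivity)
      have : (n : ℝ) ≤ k := by exact_mod_cast hnk
      linarith
    linarith
  have h2 : ⋂ n : ℕ, Ioo (A - 1 / ((n : ℝ) + 1)) A = ∅ := by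
    apply eq_empty_of_forall_notMem
    intro x hx
    rw [mem_iInter] at hx
    have hxA : x < A := (hx 0).2
    obtain ⟨n, hn⟩ := exists_nat_one_div_lt (sub_pos.2 hxA)
    have := (hx n).1
    linarith
  rw [h2, Measure.restrict_empty, integral_zero_measure] at h1
  obtain ⟨n, hn⟩ := ((tendsto_order.1 h1).2 ε hε).exists
  refine ⟨1 / ((n : ℝ) + 1), by positivity, fun D hD hD2 => ?_⟩
  refine le_trans (setIntegral_mono_set hm.int.norm.integrableOn
    (Eventually.of_forall fun x => norm_nonneg _) ?_) hn.le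
  exact (Ioo_subset_Ioo_left (by linarith)).eventuallyLE

end Pool.Agent.Q246.SB
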