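import Pool.Agent.Q246.SB.Int

set_option autoImplicit false

/-!
# No exceptional zeros of the average at good heights
-/

namespace Pool.Agent.Q246.SB

open Complex Filter Topology Set Metric MeasureTheory
open Pool.Agent.Y671.GL
open Pool.Agent.Q246.SA
open scoped ComplexConjugate

/-- choice of the small parameter -/
lemma choose_D {a A b D0 : ℝ} (ha : 0 ≤ a) (hA : 0 < A) (haA : a ≤ A) (hb : 0 ≤ b)
    (hab : 2 * b ^ 2 < A ^ 2 + a ^ 2) (hD0 : 0 < D0) :
    ∃ D : ℝ, 0 < D ∧ D ≤ D0 ∧ D ≤ 1 / 4 ∧ b + D ≤ A - 3 * D ∧ 8 * D ≤ A ∧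
      2 * b ^ 2 ≤ (max (a - 2 * D) 0) ^ 2 + (A - 3 * D) ^ 2 := by
  have hbA : b < A := by nlinarith
  have h1 : ∀ᶠ D : ℝ in 𝓝[>] 0, 0 < D := self_mem_nhdsWithin
  have h2 : ∀ᶠ D : ℝ in 𝓝[>] 0, D < D0 := nhdsWithin_le_nhds (gt_mem_nhds hD0)
  have h3 : ∀ᶠ D : ℝ in 𝓝[>] 0, D < 1 / 4 := nhdsWithin_le_nhds (gt_mem_nhds (by norm_num))
  have h4 : ∀ᶠ D : ℝ in 𝓝[>] 0, D < (A - b) / 4 := nhdsWithin_le_nhds (gt_mem_nhds (by linarith))
  have h5 : ∀ᶠ D : ℝ in 𝓝[>] 0, D < A / 8 := nhdsWithin_le_nhds (gt_mem_nhds (by linarith))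
  have hc : Continuous fun D : ℝ => (max (a - 2 * D) 0) ^ 2 + (A - 3 * D) ^ 2 := by fun_prop
  have h6 : Tendsto (fun D : ℝ => (max (a - 2 * D) 0) ^ 2 + (A - 3 * D) ^ 2) (𝓝[>] 0) (𝓝 (a ^ 2 + A ^ 2)) := by
    have h7 := (hc.tendsto 0).mono_left (nhdsWithin_le_nhds (s := Set.Ioi (0 : ℝ)))
    simpa [max_eq_left ha] using h7
  have h7 := (tendsto_order.1 h6).1 (2 * b ^ 2) (by linarith)
  obtain ⟨D, g1, g2, g3, g4, g5, g6⟩ := (h1.and (h2.and (h3.and (h4.and (h5.and h7))))).exists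
  exact ⟨D, g1, g2.le, g3.le, by linarith, by linarith, g6.le⟩

variable {X H Z : ℂ → ℂ} {κ : ℝ} {m : Measure ℝ} {g : ℝ → ℂ} {a A : ℝ}

theorem deriv_GS (h : Sy X) (hm : MD m g a A) (y : ℝ) :
    deriv (GS X m g) (y * I) = -(conj (deriv (GG X m g) (y * I))) := by
  rw [(GS_deriv h hm _).deriv, (GG_deriv h hm _).deriv, ← integral_conj, ← integral_neg]
  refine integral_congr_ae (Eventually.of_forall fun x => ?_)
  show conj (g x) * deriv X (y * I + -(x : ℂ)) = -(conj (g x * deriv X (y * I + x)))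
  rw [map_mul]
  have e : (y * I + -(x : ℂ) : ℂ) = -(conj (y * I + x : ℂ)) := by
    rw [map_add, map_mul, Complex.conj_ofReal, Complex.conj_ofReal, Complex.conj_I]; ring
  rw [e, deriv_symm h]
  ring

theorem FM_simple (h : Sy X) (hm : MD m g a A) {u : ℂ} (hu : ‖u‖ = 1) {y : ℝ}
    (hne : GG X m g (y * I) ≠ 0) (hpos : 0 < (logDeriv (GG X m g) (y * I)).re) (h0 : FM X m g u (y * I) = 0) :
    deriv (FM X m g u) (y * I) ≠ 0 := by
  intro h1
  have e1 : FM X m g u = fun z => GG X m g z + u * GS X m g z := funext fun z => FM_eq h hm u z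
  have hd : HasDerivAt (FM X m g u) (deriv (GG X m g) (y * I) + u * deriv (GS X m g) (y * I)) (y * I) := by
    rw [e1]
    exact ((GG_diff h hm _).hasDerivAt).add (((GS_diff h hm _).hasDerivAt).const_mul u)
  rw [hd.deriv, deriv_GS h hm] at h1
  rw [FM_eq h hm, GS_eq h] at h0
  have e2 : (-(conj (y * I : ℂ))) = y * I := by
    rw [map_mul, Complex.conj_ofReal, Complex.conj_I]; ring
  rw [e2] at h0
  obtain ⟨p, hp⟩ : ∃ p, p = GG X m g (y * I) := ⟨_, rfl⟩
  obtain ⟨p', hp'⟩ : ∃ p', p' = deriv (GG X m g) (y * I) := ⟨_, rfl⟩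
  have hl : logDeriv (GG X m g) (y * I) = p' / p := by rw [logDeriv_apply, hp, hp']
  rw [← hp] at h0 hne
  rw [← hp'] at h1
  rw [hl] at hpos
  have hcp : conj p ≠ 0 := by rwa [Ne, map_eq_zero]
  have h2 : p' / p = -(conj (p' / p)) := by
    rw [map_div₀, ← neg_div, div_eq_div_iff hne hcp]
    linear_combination (conj p) * h1 + (conj p') * h0
  have h3 := congrArg Complex.re h2
  rw [Complex.neg_re, Complex.conj_re] at h3
  linarith

/-- **The local theorem.** -/
theorem loc (h : Sy X) (hcf : CF κ H X Z) (hm : MD m g a A) {b : ℝ} (hb0 : 0 ≤ b) (hb : b ≤ 1 / 2)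
    (hab : 2 * b ^ 2 < A ^ 2 + a ^ 2) {R0 : ℝ} (hR0 : 2 ≤ R0) :
    ∃ Y0 : ℝ, 2 ≤ Y0 ∧ ∀ y : ℝ, Y0 ≤ y → Gd X b y → ∀ u : ℂ, ‖u‖ = 1 → ∀ σ : ℝ, |σ| ≤ R0 →
      FM X m g u (σ + y * I) = 0 → σ = 0 ∧ deriv (FM X m g u) (σ + y * I) ≠ 0 := by
  obtain ⟨γ, hγ⟩ : ∃ γ : ℂ, γ = ((m.real {A} : ℝ) : ℂ) * g A := ⟨_, rfl⟩
  have hγ0 : γ ≠ 0 := by rw [hγ]; exact hm.atom
  have hγp : 0 < ‖γ‖ := norm_pos_iff.2 hγ0
  obtain ⟨D0, hD0, hsmall⟩ := hm.small (ε := ‖γ‖ / 8) (by positivity)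
  obtain ⟨D, hD, hDD0, hD4, hbD, hDA, hS⟩ := choose_D hm.a0 hm.A0 hm.aA hb0 hab hD0
  have ha0 := hm.a0
  have hA0 := hm.A0
  have haA := hm.aA
  obtain ⟨R, hR⟩ : ∃ R : ℝ, R = R0 + A + 1 := ⟨_, rfl⟩
  obtain ⟨c, Y1, hc, hY1, hgrow⟩ := growth h hcf hb0 hb hD (R := R) (by rw [hR]; linarith)
  obtain ⟨N, hN⟩ : ∃ N : ℝ, N = ∫ x, ‖g x‖ ∂m := ⟨_, rfl⟩
  have hN0 : 0 ≤ N := by rw [hN]; exact integral_nonneg fun x => norm_nonneg _
  obtain ⟨M, hM⟩ : ∃ M : ℝ, M = max (Real.log (8 * (N + 1) / ‖γ‖) / (c * D)) ((1 / (3 * D) + 1) / c) := ⟨_, rfl⟩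
  refine ⟨max Y1 (Real.exp M), hY1.trans (le_max_left _ _), fun y hy hg u hu σ hσ h0 => ?_⟩
  have hyY : Y1 ≤ y := (le_max_left _ _).trans hy
  have hyM : M ≤ Real.log y := by
    rw [Real.le_log_iff_exp_le (by linarith)]
    exact (le_max_right _ _).trans hy
  obtain ⟨m1, hm1⟩ : ∃ m1 : ℝ, m1 = c * Real.log y := ⟨_, rfl⟩
  have hm1a : Real.log (8 * (N + 1) / ‖γ‖) ≤ m1 * D := by
    have h1 : Real.log (8 * (N + 1) / ‖γ‖) / (c * D) ≤ Real.log y := (by rw [hM] at hyM; exact (le_max_left _ _).trans hyM)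
    rw [div_le_iff₀ (by positivity)] at h1
    rw [hm1]
    linarith
  have hm1b : 1 / (3 * D) + 1 ≤ m1 := by
    have h1 : (1 / (3 * D) + 1) / c ≤ Real.log y := (by rw [hM] at hyM; exact (le_max_right _ _).trans hyM)
    rw [div_le_iff₀ hc] at h1
    rw [hm1]
    linarith
  have hm10 : 0 < m1 := lt_of_lt_of_le (by positivity) hm1b
  obtain ⟨q, hq⟩ : ∃ q : ℝ, q = Real.exp (-(m1 * D)) := ⟨_, rfl⟩
  have hq0 : 0 < q := by rw [hq]; exact Real.exp_pos _
  have hqN : q * N ≤ ‖γ‖ / 8 := by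
    have h1 : q ≤ ‖γ‖ / (8 * (N + 1)) := by
      rw [hq, Real.exp_neg, inv_le_comm₀ (Real.exp_pos _) (by positivity), inv_div]
      rwa [← Real.log_le_iff_le_exp (by positivity)]
    calc q * N ≤ ‖γ‖ / (8 * (N + 1)) * (N + 1) := by gcongr; linarith
      _ = ‖γ‖ / 8 := by field_simp
  have hgr : ∀ t : ℝ, |t - y| ≤ 1 → ∀ w : ℝ, b + D ≤ w → w ≤ R → X (w + t * I) ≠ 0 ∧ m1 ≤ (logDeriv X (w + t * I)).re := by
    intro t ht w h1 h2
    rw [hm1]
    exact hgrow y t w hyY hg ht h1 h2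
  -- the domination at distance D
  have hdom : ∀ t w v : ℝ, |t - y| ≤ 1 → b + 2 * D ≤ w → w ≤ R → |v| ≤ w - D → 2 * b ^ 2 ≤ v ^ 2 + (w - D) ^ 2 →
      ‖X (v + t * I)‖ ≤ q * ‖X (w + t * I)‖ := by
    intro t w v ht h1 h2 h3 h4
    have h5 := dom h hg ht (hgr t ht) hD.le (by linarith) h2 h3 h4
    rw [hq, Real.exp_neg, inv_mul_eq_div, le_div_iff₀ (Real.exp_pos _)]
    exact h5
  have hdom0 : ∀ t w v : ℝ, |t - y| ≤ 1 → b + 2 * D ≤ w → w ≤ R → |v| ≤ w → 2 * b ^ 2 ≤ v ^ 2 + w ^ 2 →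
      ‖X (v + t * I)‖ ≤ ‖X (w + t * I)‖ := by
    intro t w v ht h1 h2 h3 h4
    have h5 := dom h hg ht (hgr t ht) (η := 0) le_rfl (by linarith) h2 (by linarith) (by rw [sub_zero]; exact h4)
    rwa [mul_zero, Real.exp_zero, mul_one] at h5
  have hsh : ∀ (z : ℂ) (x : ℝ), z + (x : ℂ) = ((z.re + x : ℝ) : ℂ) + z.im * I := by
    intro z x
    apply Complex.ext <;> simp
  have hsh' : ∀ (z : ℂ) (x : ℝ), z - (x : ℂ) = ((z.re - x : ℝ) : ℂ) + z.im * I := by
    intro z x
    apply Complex.ext <;> simp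
  have hSx : ∀ s x : ℝ, -(2 * D) ≤ s → a ≤ x → 2 * b ^ 2 ≤ (s + x) ^ 2 + (s + A - D) ^ 2 := by
    intro s x hs hx
    have h1 : (A - 3 * D) ^ 2 ≤ (s + A - D) ^ 2 := pow_le_pow_left₀ (by linarith) (by linarith) 2
    have h2 : (max (a - 2 * D) 0) ^ 2 ≤ (s + x) ^ 2 := by
      rcases le_total (a - 2 * D) 0 with h3 | h3
      · rw [max_eq_right h3]
        nlinarith [sq_nonneg (s + x)]
      · rw [max_eq_left h3]
        exact pow_le_pow_left₀ h3 (by linarith) 2
    linarith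
  -- the remainder
  have hRM : ∀ z : ℂ, -(2 * D) ≤ z.re → z.re ≤ R0 → |z.im - y| ≤ 1 →
      X (z + A) ≠ 0 ∧ ‖RM X m g A z‖ ≤ ‖γ‖ / 4 * ‖X (z + A)‖ := by
    intro z h1 h2 h3
    constructor
    · rw [hsh]
      exact (hgr z.im h3 (z.re + A) (by linarith) (by rw [hR]; linarith)).1
    · have h4 := RM_le hm (z := z) (X := X) (D := D) (P := ‖X (z + A)‖) (q := q) hD.le (norm_nonneg _) hq0.le
        (by
          intro x hx1 hx2
          rw [hsh z x, hsh z A]
          refine hdom z.im (z.re + A) (z.re + x) h3 (by linarith) (by rw [hR]; linarith) ?_ ?_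
          · rw [abs_le]
            constructor <;> linarith
          · exact hSx z.re x h1 hx1)
        (by
          intro x hx1 hx2 hx3
          rw [hsh z x, hsh z A]
          refine hdom0 z.im (z.re + A) (z.re + x) h3 (by linarith) (by rw [hR]; linarith) ?_ ?_
          · rw [abs_le]
            constructor <;> linarith
          · have h5 := hSx z.re x h1 hx1
            have h6 : (z.re + A - D) ^ 2 ≤ (z.re + A) ^ 2 := pow_le_pow_left₀ (by linarith) (by linarith) 2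
            linarith)
      rw [← hN] at h4
      have h5 := hsmall D hD hDD0
      have h6 : q * N + ∫ x in Ioo (A - D) A, ‖g x‖ ∂m ≤ ‖γ‖ / 4 := by linarith
      calc _ ≤ _ := h4
        _ ≤ ‖X (z + A)‖ * (‖γ‖ / 4) := mul_le_mul_of_nonneg_left h6 (norm_nonneg _)
        _ = _ := by ring
  have hGG : ∀ z : ℂ, GG X m g z = γ * X (z + A) + RM X m g A z := by
    intro z
    rw [hγ]
    exact GG_split h hm z
  have hGGlow : ∀ z : ℂ, -(2 * D) ≤ z.re → z.re ≤ R0 → |z.im - y| ≤ 1 →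
      ‖γ‖ * (3 / 4) * ‖X (z + A)‖ ≤ ‖GG X m g z‖ := by
    intro z h1 h2 h3
    have h4 := (hRM z h1 h2 h3).2
    rw [hGG]
    have h5 := norm_sub_le_norm_add (γ * X (z + A)) (RM X m g A z)
    rw [norm_mul] at h5
    linarith
  have hGGne : ∀ z : ℂ, -(2 * D) ≤ z.re → z.re ≤ R0 → |z.im - y| ≤ 1 → GG X m g z ≠ 0 := by
    intro z h1 h2 h3
    rw [← norm_pos_iff]
    refine lt_of_lt_of_le ?_ (hGGlow z h1 h2 h3)
    have := norm_pos_iff.2 (hRM z h1 h2 h3).1
    positivity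
  -- the logarithmic derivative of GG
  have hlog : ∀ s : ℝ, |s| ≤ D → 1 ≤ (logDeriv (GG X m g) (s + y * I)).re := by
    intro s hs
    have hs' := abs_le.1 hs
    obtain ⟨z0, hz0⟩ : ∃ z0 : ℂ, z0 = s + y * I := ⟨_, rfl⟩
    have hz0re : z0.re = s := by rw [hz0]; simp
    have hz0im : z0.im = y := by rw [hz0]; simp
    rw [← hz0]
    have hcb : ∀ z ∈ closedBall z0 D, -(2 * D) ≤ z.re ∧ z.re ≤ R0 ∧ |z.im - y| ≤ 1 := by
      intro z hz
      rw [mem_closedBall_iff_norm] at hz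
      have g1 := abs_le.1 ((Complex.abs_re_le_norm _).trans hz)
      have g2 := (Complex.abs_im_le_norm _).trans hz
      rw [Complex.sub_re, hz0re] at g1
      rw [Complex.sub_im, hz0im] at g2
      exact ⟨by linarith [g1.1], by linarith [g1.2], by linarith⟩
    obtain ⟨Rf, hRf⟩ : ∃ Rf : ℂ → ℂ, Rf = fun z => RM X m g A z / (γ * X (z + A)) := ⟨_, rfl⟩
    have hXA : Differentiable ℂ (fun z : ℂ => X (z + A)) := h.diff.comp (by fun_prop)
    have hRMd : Differentiable ℂ (RM X m g A) := by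
      have e : RM X m g A = fun z => GG X m g z - γ * X (z + A) := by
        funext z
        rw [hGG]
        ring
      rw [e]
      exact (GG_diff h hm).sub (hXA.const_mul γ)
    have hden : ∀ z ∈ closedBall z0 D, γ * X (z + A) ≠ 0 := by
      intro z hz
      obtain ⟨g1, g2, g3⟩ := hcb z hz
      exact mul_ne_zero hγ0 (hRM z g1 g2 g3).1
    have hRfd : ∀ z ∈ closedBall z0 D, DifferentiableAt ℂ Rf z := by
      intro z hz
      rw [hRf]
      exact (hRMd z).div ((hXA z).const_mul γ) (hden z hz)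
    have hRfb : ∀ z ∈ closedBall z0 D, ‖Rf z‖ ≤ 1 / 4 := by
      intro z hz
      obtain ⟨g1, g2, g3⟩ := hcb z hz
      obtain ⟨g4, g5⟩ := hRM z g1 g2 g3
      have g6 := norm_pos_iff.2 g4
      rw [hRf]
      simp only
      rw [norm_div, norm_mul, div_le_iff₀ (by positivity)]
      linarith
    have hcz : z0 ∈ closedBall z0 D := mem_closedBall_self hD.le
    have hder : ‖deriv Rf z0‖ ≤ 1 / 4 / D := by
      refine Complex.norm_deriv_le_of_forall_mem_sphere_norm_le hD ?_ fun z hz => hRfb z (sphere_subset_closedBall hz)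
      refine DifferentiableOn.diffContOnCl fun z hz => ?_
      rw [closure_ball z0 hD.ne'] at hz
      exact (hRfd z hz).differentiableWithinAt
    have hR4 := hRfb z0 hcz
    have h1R : 3 / 4 ≤ ‖1 + Rf z0‖ := by
      have := norm_sub_le_norm_add (1 : ℂ) (Rf z0)
      rw [norm_one] at this
      linarith
    have h1R0 : 1 + Rf z0 ≠ 0 := by
      rw [← norm_pos_iff]
      linarith
    have hval : GG X m g z0 = γ * X (z0 + A) * (1 + Rf z0) := by
      rw [hGG, hRf]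
      show _ = γ * X (z0 + A) * (1 + RM X m g A z0 / (γ * X (z0 + A)))
      rw [mul_add, mul_one, ← mul_div_assoc, mul_div_cancel_left₀ _ (hden z0 hcz)]
    have hev : GG X m g =ᶠ[𝓝 z0] fun z => γ * X (z + A) * (1 + Rf z) := by
      filter_upwards [closedBall_mem_nhds z0 hD] with z hz
      rw [hGG, hRf]
      show _ = γ * X (z + A) * (1 + RM X m g A z / (γ * X (z + A)))
      rw [mul_add, mul_one, ← mul_div_assoc, mul_div_cancel_left₀ _ (hden z hz)]
    have hdG : deriv (GG X m g) z0 = γ * deriv X (z0 + A) * (1 + Rf z0) + γ * X (z0 + A) * deriv Rf z0 := by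
      rw [hev.deriv_eq]
      have e1 : HasDerivAt (fun z : ℂ => γ * X (z + A)) (γ * deriv X (z0 + A)) z0 :=
        (((h.diff _).hasDerivAt).comp_add_const _ _).const_mul γ
      have e2 : HasDerivAt (fun z => 1 + Rf z) (deriv Rf z0) z0 := ((hRfd z0 hcz).hasDerivAt).const_add 1
      exact (e1.mul e2).deriv
    have hX0 := (hRM z0 (by rw [hz0re]; linarith) (by rw [hz0re]; linarith) (by rw [hz0im, sub_self, abs_zero]; norm_num)).1
    have hlogd : logDeriv (GG X m g) z0 = logDeriv X (z0 + A) + deriv Rf z0 / (1 + Rf z0) := by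
      rw [logDeriv_apply, logDeriv_apply, hdG, hval]
      field_simp
    rw [hlogd, Complex.add_re]
    have g1 : m1 ≤ (logDeriv X (z0 + A)).re := by
      rw [hsh z0 A, hz0re, hz0im]
      exact (hgr y (by rw [sub_self, abs_zero]; norm_num) (s + A) (by linarith) (by rw [hR]; linarith)).2
    have g2 : ‖deriv Rf z0 / (1 + Rf z0)‖ ≤ 1 / (3 * D) := by
      rw [norm_div, div_le_iff₀ (by linarith)]
      calc ‖deriv Rf z0‖ ≤ 1 / 4 / D := hder
        _ = 1 / (3 * D) * (3 / 4) := by field_simp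
        _ ≤ _ := mul_le_mul_of_nonneg_left h1R (by positivity)
    have g3 := (abs_le.1 ((Complex.abs_re_le_norm _).trans g2)).1
    linarith
  -- positive real parts
  have hkey : ∀ s : ℝ, 0 < s → s ≤ R0 → ‖GS X m g (s + y * I)‖ < ‖GG X m g (s + y * I)‖ := by
    intro s hs1 hs2
    have hre : ((s : ℂ) + y * I).re = s := by simp
    have him : ((s : ℂ) + y * I).im = y := by simp
    rcases le_or_gt s D with h1 | h1
    · have e1 : ‖GS X m g (s + y * I)‖ = ‖GG X m g (((-s : ℝ) : ℂ) + y * I)‖ := by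
        rw [GS_eq h, Complex.norm_conj]
        congr 2
        rw [map_add, map_mul, Complex.conj_ofReal, Complex.conj_ofReal, Complex.conj_I]
        push_cast
        ring
      have hr : ∀ w : ℝ, -s ≤ w → w ≤ s → |w| ≤ D := by
        intro w h2 h3
        rw [abs_le]
        constructor <;> linarith
      have hr' : ∀ w : ℝ, -s ≤ w → w ≤ s → GG X m g (w + y * I) ≠ 0 := by
        intro w h2 h3
        have h4 := abs_le.1 (hr w h2 h3)
        refine hGGne _ ?_ ?_ ?_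
        · simp
          linarith
        · simp
          linarith
        · simp
      have h2 := grow_of (GG_diff h hm) (t := y) (a := -s) (b := s) (m := 1) (by linarith) hr'
        (fun w h2 h3 => hlog w (hr w h2 h3))
      rw [e1]
      have h3 := norm_pos_iff.2 (hr' (-s) le_rfl (by linarith))
      have h4 : 1 < Real.exp (1 * (s - -s)) := by
        rw [Real.one_lt_exp_iff]
        linarith
      nlinarith
    · have h2 : ‖GS X m g (s + y * I)‖ ≤ (q * ‖X ((s : ℂ) + y * I + A)‖) * ∫ x, ‖g x‖ ∂m := by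
        refine GS_le hm fun x hx1 hx2 => ?_
        rw [hsh', hsh _ A, hre, him]
        refine hdom y (s + A) (s - x) (by rw [sub_self, abs_zero]; norm_num) (by linarith) (by rw [hR]; linarith) ?_ ?_
        · rw [abs_le]
          constructor <;> linarith
        · have h3 : (A - 3 * D) ^ 2 ≤ (A - D) ^ 2 := pow_le_pow_left₀ (by linarith) (by linarith) 2
          have h4 : (max (a - 2 * D) 0) ^ 2 ≤ x ^ 2 := by
            rcases le_total (a - 2 * D) 0 with h5 | h5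
            · rw [max_eq_right h5]
              nlinarith [sq_nonneg x]
            · rw [max_eq_left h5]
              exact pow_le_pow_left₀ h5 (by linarith) 2
          nlinarith [mul_nonneg hs1.le (sub_nonneg.2 hx2), mul_nonneg hs1.le (sub_nonneg.2 h1.le)]
      rw [← hN] at h2
      have h3 := hGGlow (s + y * I) (by rw [hre]; linarith) (by rw [hre]; exact hs2) (by rw [him, sub_self, abs_zero]; norm_num)
      have h4 := norm_pos_iff.2 (hRM (s + y * I) (by rw [hre]; linarith) (by rw [hre]; exact hs2)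
        (by rw [him, sub_self, abs_zero]; norm_num)).1
      have h5 : (q * ‖X ((s : ℂ) + y * I + A)‖) * N ≤ ‖γ‖ / 8 * ‖X ((s : ℂ) + y * I + A)‖ := by
        calc _ = (q * N) * ‖X ((s : ℂ) + y * I + A)‖ := by ring
          _ ≤ _ := mul_le_mul_of_nonneg_right hqN h4.le
      nlinarith [mul_pos hγp h4]
  have hnz : ∀ s : ℝ, 0 < s → s ≤ R0 → FM X m g u (s + y * I) ≠ 0 := by
    intro s hs1 hs2 h1
    rw [FM_eq h hm] at h1
    have h2 := hkey s hs1 hs2
    have h3 : GG X m g (s + y * I) = -(u * GS X m g (s + y * I)) := by linear_combination h1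
    rw [h3, norm_neg, norm_mul, hu, one_mul] at h2
    exact lt_irrefl _ h2
  have hσ' := abs_le.1 hσ
  rcases lt_trichotomy σ 0 with h1 | h1 | h1
  · exfalso
    refine hnz (-σ) (by linarith) (by linarith) ?_
    have e : (((-σ : ℝ) : ℂ) + y * I) = -(conj (σ + y * I : ℂ)) := by
      rw [map_add, map_mul, Complex.conj_ofReal, Complex.conj_ofReal, Complex.conj_I]
      push_cast
      ring
    rw [e, FM_symm h hm hu, h0, map_zero, mul_zero]
  · refine ⟨h1, ?_⟩
    rw [h1] at h0 ⊢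
    rw [Complex.ofReal_zero, zero_add] at h0 ⊢
    refine FM_simple h hm hu ?_ ?_ h0
    · refine hGGne _ ?_ ?_ ?_
      · simp
        linarith
      · simp
        linarith
      · simp
    · have := hlog 0 (by rw [abs_zero]; exact hD.le)
      rw [Complex.ofReal_zero, zero_add] at this
      linarith
  · exact absurd h0 (hnz σ h1 hσ'.2)

end Pool.Agent.Q246.SB
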